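import Pool.Agent.Lib.MP_1e3e9c_ag.RC.Defs

/-! # Deg: multihomogeneous polynomials: degrees and scaling

JOB Deg (60 lines).  Both: write `F` as the sum of its monomials (`MvPolynomial.aeval_def`, `eval₂_eq`,
`MvPolynomial.as_sum`) and use that a monomial `d` of `F` (coefficient `≠ 0`) has
`Finsupp.weight (mdeg fc w) d = D`, i.e. for every `b`: `∑_{i, fc i = b} d i * w i = D b`
(`Finsupp.weight_apply`, evaluate at `b`, `Pi.single_apply`).
`natDegree_aeval_le`: `natDegree (∏ P i ^ d i) ≤ ∑ d i * natDegree (P i) ≤ ∑_{fc i = α} d i * w i = D α`.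
`aeval_scale`: `∏ (C (lam (fc i)) ^ w i * P i) ^ d i = ∏_b C (lam b) ^ (∑_{fc i = b} d i * w i) * ∏ P i ^ d i`
(`Finset.prod_fiberwise`, or `∏ i, g (fc i) ^ e i = ∏ b, g b ^ ∑_{fc i = b} e i`). -/

set_option autoImplicit false

namespace Pool.Agent.Lib.MP_1e3e9c_ag.RC

open Polynomial

/-- the weighted degree read in one factor -/
theorem mdeg_coord {k ι B : Type*} [Field k] [DecidableEq B]
    [Fintype ι] (fc : ι → B) (w : ι → ℕ) (F : MvPolynomial ι k) (D : B → ℕ)
    (hF : F.IsWeightedHomogeneous (mdeg fc w) D) (d : ι →₀ ℕ) (hd : d ∈ F.support) (b : B) :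
    (∑ i, if fc i = b then d i * w i else 0) = D b := by
  have h := hF (MvPolynomial.mem_support_iff.mp hd)
  have h1 := congrFun h b
  rw [← h1, Finsupp.weight_apply, Finsupp.sum_fintype _ _ (by intro i; simp)]
  rw [Finset.sum_apply]
  refine Finset.sum_congr rfl fun i _ => ?_
  simp only [mdeg, Pi.smul_apply, Pi.single_apply, smul_eq_mul]
  by_cases hb : fc i = b
  · subst hb; simp
  · rw [if_neg hb, if_neg (fun h => hb h.symm)]; simp

theorem natDegree_aeval_le {k R ι B : Type*} [Field k] [CommRing R] [Algebra k R] [DecidableEq B]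
    [Fintype ι] (fc : ι → B) (w : ι → ℕ) (α : B) (F : MvPolynomial ι k) (D : B → ℕ)
    (hF : F.IsWeightedHomogeneous (mdeg fc w) D) (P : ι → R[X])
    (hP : ∀ i, (P i).natDegree ≤ if fc i = α then w i else 0) :
    (MvPolynomial.aeval P F).natDegree ≤ D α := by
  rw [MvPolynomial.aeval_def, MvPolynomial.eval₂_eq]
  refine Polynomial.natDegree_sum_le_of_forall_le _ _ fun d hd => ?_
  rw [← mdeg_coord fc w F D hF d hd α]
  rw [IsScalarTower.algebraMap_apply k R R[X], Polynomial.algebraMap_apply, Algebra.algebraMap_self, RingHom.id_apply]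
  refine (Polynomial.natDegree_C_mul_le _ _).trans ?_
  have hp : (∏ i ∈ d.support, P i ^ d i) = ∏ i, P i ^ d i := by
    refine Finset.prod_subset (Finset.subset_univ _) fun i _ hi => ?_
    rw [Finsupp.notMem_support_iff.mp hi, pow_zero]
  rw [hp]
  refine (Polynomial.natDegree_prod_le _ _).trans (Finset.sum_le_sum fun i _ => ?_)
  refine Polynomial.natDegree_pow_le.trans ?_
  have h := Nat.mul_le_mul_left (d i) (hP i)
  by_cases hb : fc i = α
  · simpa [hb] using h
  · simpa [hb] using h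

theorem aeval_scale {k R ι B : Type*} [Field k] [CommRing R] [Algebra k R] [DecidableEq B]
    [Fintype ι] [Fintype B] (fc : ι → B) (w : ι → ℕ) (F : MvPolynomial ι k) (D : B → ℕ)
    (hF : F.IsWeightedHomogeneous (mdeg fc w) D) (P : ι → R) (lam : B → R) :
    MvPolynomial.aeval (fun i => lam (fc i) ^ w i * P i) F
      = (∏ b, lam b ^ D b) * MvPolynomial.aeval P F := by
  rw [MvPolynomial.aeval_def, MvPolynomial.aeval_def, MvPolynomial.eval₂_eq,
    MvPolynomial.eval₂_eq, Finset.mul_sum]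
  refine Finset.sum_congr rfl fun d hd => ?_
  have hp : ∀ Q : ι → R, (∏ i ∈ d.support, Q i ^ d i) = ∏ i, Q i ^ d i := by
    intro Q
    refine Finset.prod_subset (Finset.subset_univ _) fun i _ hi => ?_
    rw [Finsupp.notMem_support_iff.mp hi, pow_zero]
  rw [hp, hp]
  have h1 : (∏ i, (lam (fc i) ^ w i * P i) ^ d i)
      = (∏ i, lam (fc i) ^ (d i * w i)) * ∏ i, P i ^ d i := by
    rw [← Finset.prod_mul_distrib]
    refine Finset.prod_congr rfl fun i _ => ?_
    rw [mul_pow, ← pow_mul, mul_comm (w i) (d i)]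
  have h2 : (∏ i, lam (fc i) ^ (d i * w i)) = ∏ b, lam b ^ D b := by
    rw [← Finset.prod_fiberwise (s := Finset.univ) (g := fc)]
    refine Finset.prod_congr rfl fun b _ => ?_
    rw [← mdeg_coord fc w F D hF d hd b, ← Finset.prod_pow_eq_pow_sum, Finset.prod_filter]
    refine Finset.prod_congr rfl fun i _ => ?_
    by_cases hb : fc i = b
    · simp [hb]
    · simp [hb]
  rw [h1, h2]
  ring

end Pool.Agent.Lib.MP_1e3e9c_ag.RC
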