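import Pool.Agent.Lib.MP_1e3e9c_ag.RC.Defs

/-! # Tile: the tiling lemma (unobstructed monomial normal data)

JOB Tile (150 lines).  Write `L m = b m + 1` (length of the variable `m`), `M j = D j + 1` (length of the
target `j`), `A m = ∑_{m' < m} L m'`, `B j = ∑_{j' < j} M j'` (sums over `Fin`, or extend `b`, `D` to `ℕ`).
Cover the targets one after the other by the variables: the variable `m` gets the global positions
`[A m, A (m+1))`; the target `j` has the global positions `[B j, B (j+1))`.  Definition of `s m j`:
* if `B j ≤ A m` and `A (m+1) ≤ B (j+1)` (contained): `s m j = some (A m - B j)`;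
* if `B j ≤ A m < B (j+1) < A (m+1)` (`m` straddles the upper end of `j`): `s m j = some (M j - L m)`
  (the interval is moved down so that it ends at the end of the target `j`);
* if `A m < B j < A (m+1)` (`m` straddles the lower end of the target `j`): `s m j = some 0`;
* otherwise `s m j = none`.
FACT: if `[A m, A (m+1))` meets `[B j, B (j+1))` then `j ≤ m` (hence `b m ≤ D j`, `L m ≤ M j`).  Proof: for
`m + 1 ≤ c` one has `A (m+1) ≤ B (m+1)` (because `L i ≤ M i` for `i < c`), so `B j < A (m+1) ≤ B (m+1)` and
`j < m + 1` (`B` is strictly increasing); for `m + 1 > c`, `j < c ≤ m`.  In particular a variable straddles at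
most one boundary (if it met `j`, `j+1`, `j+2` then `L m ≥ M (j+1) + 2`, but `L m ≤ M (j+1)`).  A variable with
`A m ≥ B c` meets no target (`s m j = none` for all `j`).
This gives the first claim `p + b m ≤ D j` in each case.

SURJECTIVITY.  It suffices to show for the finite dimensional spaces `∏_m k[X]_{< L m}`, `∏_j k[X]_{< M j}`
(use coordinates: functions on `Σ m, Fin (L m)`, `Σ j, Fin (M j)`, or `Polynomial.degreeLT`), that a linear
functional on the second space that kills the image of `δ ↦ (∑_m X^{s m j} δ_m)_j` is zero
(`Submodule.exists_le_ker_of_lt_top`).  A functional is a function `Φ j l` (`l < M j`, value at `X^l` in the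
target `j`); put `Φ j l = 0` for `l ≥ M j`.  It kills the image of the variable `m` iff for all `l < L m`
`∑_j Φ j (s m j + l) = 0` (sum over `j` with `s m j ≠ none`).
CLAIM by induction on `m`: if `Φ` kills the variables `< m` and `Φ j l = 0` whenever `B j + l ≥ A m`
(the unfilled positions), then `Φ = 0`.  For `m = r`: `A r ≥ B c` (hypothesis `hcount`) so there are no
unfilled positions and we are done.  `m = 0`: clear (`A 0 = 0`).  Step `m → m + 1`: let `Φ` kill the
variables `≤ m`, and vanish at the positions `≥ A (m+1)`.
 Contained in `j`: `Φ j (A m - B j + l) = 0` for `l < L m`: so `Φ` vanishes at the positions `≥ A m`;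
 use the induction hypothesis.  (The same if `A m ≥ B c`: there is nothing to do; and if `m` straddles the end
 `B c` of the last target: `Φ` vanishes at the last `L m` positions of the last target.)
 `m` straddles the boundary `B (j+1)` between `j` and `j+1 < c`: `Φ j (M j - L m + l) + Φ (j+1) l = 0` for all
 `l < L m`.  Let `R = B (j+1) - A m`.  For `l ≥ L m - R` the position `B (j+1) + l` is `≥ A (m+1)`: so
 `Φ (j+1) l = 0` and hence `Φ j (M j - L m + l) = 0`: `Φ` vanishes at `[A m, B (j+1))`.  Now let `Φ'` be equal to
 `Φ` in the targets `≤ j` and `0` in the targets `> j`.  `Φ'` kills the variables `< m` (they only meet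
 targets `≤ j`, since `A m < B (j+1)`) and vanishes at the positions `≥ A m`.  By induction `Φ' = 0`.  So
 `Φ (j+1) l = - Φ j (M j - L m + l) = 0` for all `l < L m`, and the other positions of the targets `> j` are
 `≥ A (m+1)`.  So `Φ = 0`. -/

set_option autoImplicit false

namespace Pool.Agent.Lib.MP_1e3e9c_ag.RC

open Polynomial

/-- Partial sums of the lengths. -/
def tileA (b : ℕ → ℕ) (m : ℕ) : ℕ := ∑ i ∈ Finset.range m, (b i + 1)

theorem tileA_succ (b : ℕ → ℕ) (m : ℕ) : tileA b (m + 1) = tileA b m + (b m + 1) := by
  unfold tileA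
  rw [Finset.sum_range_succ]

theorem tileA_zero (b : ℕ → ℕ) : tileA b 0 = 0 := by
  unfold tileA
  rw [Finset.sum_range_zero]

theorem tileA_mono (b : ℕ → ℕ) : Monotone (tileA b) :=
  monotone_nat_of_le_succ fun n => by
    rw [tileA_succ]
    exact Nat.le_add_right _ _

/-- The shifts. -/
def tileS (b D : ℕ → ℕ) (m j : ℕ) : Option ℕ :=
  if tileA D j ≤ tileA b m ∧ tileA b m < tileA D (j + 1) then
    some (min (tileA b m - tileA D j) (D j - b m))
  else if tileA b m < tileA D j ∧ tileA D j < tileA b (m + 1) then some 0
  else none

/-- The contribution of one variable. -/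
noncomputable def tileT {k : Type*} [Field k] (b D : ℕ → ℕ) (m j : ℕ) (f : k[X]) : k[X] :=
  (tileS b D m j).elim 0 (fun p => X ^ p * f)

theorem tileT_add {k : Type*} [Field k] (b D : ℕ → ℕ) (m j : ℕ) (f g : k[X]) :
    tileT b D m j (f + g) = tileT b D m j f + tileT b D m j g := by
  unfold tileT
  cases tileS b D m j with
  | none => simp
  | some p => simp [mul_add]

theorem tileT_zero {k : Type*} [Field k] (b D : ℕ → ℕ) (m j : ℕ) :
    tileT b D m j (0 : k[X]) = 0 := by
  unfold tileT
  cases tileS b D m j with
  | none => simp
  | some p => simp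

theorem tile_ord {r c : ℕ} {b D : ℕ → ℕ} (hord : ∀ m < r, ∀ j < c, j ≤ m → b m ≤ D j)
    {m j : ℕ} (hm : m < r) (hj : j < c) (h : tileA D j < tileA b (m + 1)) : j ≤ m := by
  by_contra hc
  push Not at hc
  have h1 : tileA b (m + 1) ≤ tileA D (m + 1) := by
    unfold tileA
    refine Finset.sum_le_sum fun i hi => ?_
    have hi' : i ≤ m := Nat.lt_succ_iff.1 (Finset.mem_range.1 hi)
    have := hord i (by omega) i (by omega) le_rfl
    omega
  have h2 : tileA D (m + 1) ≤ tileA D j := tileA_mono D hc
  omega

theorem tileS_spec {r c : ℕ} {b D : ℕ → ℕ} (hord : ∀ m < r, ∀ j < c, j ≤ m → b m ≤ D j)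
    {m j p : ℕ} (hm : m < r) (hj : j < c) (h : tileS b D m j = some p) :
    j ≤ m ∧ p + b m ≤ D j := by
  unfold tileS at h
  split_ifs at h with h1 h2
  · have h3 : j ≤ m := tile_ord hord hm hj (by rw [tileA_succ]; omega)
    have h4 := hord m hm j hj h3
    have h5 := Option.some.inj h
    have h6 : min (tileA b m - tileA D j) (D j - b m) ≤ D j - b m := min_le_right _ _
    exact ⟨h3, by omega⟩
  · have h3 : j ≤ m := tile_ord hord hm hj h2.2
    have h4 := hord m hm j hj h3
    have h5 := Option.some.inj h
    exact ⟨h3, by omega⟩

/-- There is a target that contains the position. -/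
theorem tile_find (D : ℕ → ℕ) (a c : ℕ) (h : a < tileA D c) :
    ∃ j < c, tileA D j ≤ a ∧ a < tileA D (j + 1) := by
  induction c with
  | zero =>
    rw [tileA_zero] at h
    omega
  | succ n ih =>
    by_cases h1 : a < tileA D n
    · obtain ⟨j, hj, h2⟩ := ih h1
      exact ⟨j, by omega, h2⟩
    · exact ⟨n, by omega, by omega, h⟩

/-- The polynomial with coefficients `a l` for `lo ≤ l < hi`. -/
noncomputable def tileP {k : Type*} [Field k] (lo hi : ℕ) (a : ℕ → k) : k[X] :=
  ∑ l ∈ Finset.Ico lo hi, monomial l (a l)

theorem tileP_coeff {k : Type*} [Field k] (lo hi : ℕ) (a : ℕ → k) (l : ℕ) :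
    (tileP lo hi a).coeff l = if lo ≤ l ∧ l < hi then a l else 0 := by
  unfold tileP
  rw [finset_sum_coeff]
  simp only [coeff_monomial]
  rw [Finset.sum_ite_eq' (Finset.Ico lo hi) l a]
  simp only [Finset.mem_Ico]

theorem tileP_natDegree {k : Type*} [Field k] (lo hi : ℕ) (a : ℕ → k) {d : ℕ} (h : hi ≤ d + 1) :
    (tileP lo hi a).natDegree ≤ d := by
  rw [natDegree_le_iff_coeff_eq_zero]
  intro N hN
  rw [tileP_coeff, if_neg (by omega)]

theorem tile_main {k : Type*} [Field k] {r c : ℕ} {b D : ℕ → ℕ}
    (hord : ∀ m < r, ∀ j < c, j ≤ m → b m ≤ D j) :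
    ∀ m ≤ r, ∀ g : ℕ → k[X], ∃ δ : ℕ → k[X], (∀ i < m, (δ i).natDegree ≤ b i) ∧
      ∀ j < c, ∀ l ≤ D j, tileA D j + l < tileA b m →
        (g j - ∑ i ∈ Finset.range m, tileT b D i j (δ i)).coeff l = 0 := by
  intro m
  induction m with
  | zero =>
    intro _ g
    refine ⟨fun _ => 0, fun i hi => absurd hi (Nat.not_lt_zero i), fun j _ l _ h => ?_⟩
    rw [tileA_zero] at h
    omega
  | succ m ih =>
    intro hm g
    have hA := tileA_succ b m
    by_cases hc : tileA b m < tileA D c
    · obtain ⟨j0, hj0, hj1, hj2⟩ := tile_find D _ c hc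
      have hB := tileA_succ D j0
      have hle : j0 ≤ m := tile_ord hord (by omega) hj0 (by omega)
      have hbD := hord m (by omega) j0 hj0 hle
      have hS0 : tileS b D m j0 = some (min (tileA b m - tileA D j0) (D j0 - b m)) := by
        unfold tileS
        rw [if_pos ⟨hj1, hj2⟩]
      obtain ⟨p, hp⟩ : ∃ p, p = min (tileA b m - tileA D j0) (D j0 - b m) := ⟨_, rfl⟩
      rw [← hp] at hS0
      have hp1 : p ≤ tileA b m - tileA D j0 := hp ▸ min_le_left _ _
      have hp2 : p ≤ D j0 - b m := hp ▸ min_le_right _ _
      have hp3 : p = tileA b m - tileA D j0 ∨ p = D j0 - b m := by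
        rcases min_choice (tileA b m - tileA D j0) (D j0 - b m) with h | h
        · exact Or.inl (hp.trans h)
        · exact Or.inr (hp.trans h)
      obtain ⟨h, hh⟩ : ∃ h, h = tileA b m - tileA D j0 - p := ⟨_, rfl⟩
      obtain ⟨low, hlow⟩ : ∃ low : k[X],
          low = tileP 0 (min h (b m + 1)) (fun l => (g (j0 + 1)).coeff l) := ⟨_, rfl⟩
      obtain ⟨δ, hδ1, hδ2⟩ := ih (by omega) (fun j => g j - tileT b D m j low)
      obtain ⟨ρ, hρ⟩ : ∃ ρ : ℕ → k[X], ρ = fun j =>
          g j - tileT b D m j low - ∑ i ∈ Finset.range m, tileT b D i j (δ i) := ⟨_, rfl⟩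
      obtain ⟨high, hhigh⟩ : ∃ high : k[X],
          high = tileP h (b m + 1) (fun l => (ρ j0).coeff (p + l)) := ⟨_, rfl⟩
      refine ⟨fun i => if i = m then low + high else δ i, ?_, ?_⟩
      · intro i hi
        by_cases him : i = m
        · subst him
          simp only [if_pos]
          refine (natDegree_add_le _ _).trans (max_le ?_ ?_)
          · rw [hlow]
            exact tileP_natDegree _ _ _ (min_le_right _ _)
          · rw [hhigh]
            exact tileP_natDegree _ _ _ le_rfl
        · simp only [if_neg him]
          exact hδ1 i (by omega)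
      · intro j hj l hl hpos
        have hsum : ∑ i ∈ Finset.range (m + 1),
            tileT b D i j (if i = m then low + high else δ i) =
            ∑ i ∈ Finset.range m, tileT b D i j (δ i) + (tileT b D m j low + tileT b D m j high) := by
          rw [Finset.sum_range_succ, if_pos rfl, tileT_add]
          congr 1
          refine Finset.sum_congr rfl fun i hi => ?_
          rw [if_neg (by have := Finset.mem_range.1 hi; omega)]
        have hres : g j - ∑ i ∈ Finset.range (m + 1),
            tileT b D i j (if i = m then low + high else δ i) = ρ j - tileT b D m j high := by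
          rw [hsum, hρ]
          ring
        show (g j - ∑ i ∈ Finset.range (m + 1),
            tileT b D i j (if i = m then low + high else δ i)).coeff l = 0
        rw [hres, coeff_sub]
        have hBj := tileA_succ D j
        rcases lt_trichotomy j j0 with hlt | heq | hgt
        · -- targets below
          have h1 : tileA D (j + 1) ≤ tileA D j0 := tileA_mono D hlt
          have h2 : tileS b D m j = none := by
            unfold tileS
            rw [if_neg (by omega), if_neg (by omega)]
          have h3 : (ρ j).coeff l = 0 := by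
            rw [hρ]
            exact hδ2 j hj l hl (by omega)
          have h4 : tileT b D m j high = 0 := by
            unfold tileT
            rw [h2]
            rfl
          rw [h3, h4, coeff_zero, sub_zero]
        · subst heq
          have h4 : tileT b D m j high = X ^ p * high := by
            unfold tileT
            rw [hS0]
            rfl
          rw [h4, coeff_X_pow_mul']
          by_cases hfill : tileA D j + l < tileA b m
          · have h3 : (ρ j).coeff l = 0 := by
              rw [hρ]
              exact hδ2 j hj l hl hfill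
            rw [h3]
            split_ifs with h5
            · rw [hhigh, tileP_coeff, if_neg (by omega), sub_zero]
            · rw [sub_zero]
          · rw [if_pos (by omega), hhigh, tileP_coeff, if_pos (by omega)]
            have h6 : p + (l - p) = l := by omega
            rw [h6, sub_self]
        · -- targets above
          have h1 : j ≤ m := tile_ord hord (by omega) hj (by omega)
          have h2 : tileA D (j0 + 1) ≤ tileA D j := tileA_mono D hgt
          have hBj1 := tileA_succ D (j0 + 1)
          have h3 := hord m (by omega) (j0 + 1) (by omega) (by omega)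
          have h4 : j = j0 + 1 := by
            by_contra hne
            have h5 : tileA D (j0 + 1 + 1) ≤ tileA D j := tileA_mono D (by omega)
            omega
          subst h4
          have h5 : tileS b D m (j0 + 1) = some 0 := by
            unfold tileS
            rw [if_neg (by omega), if_pos (by omega)]
          have h6 : ∀ f : k[X], tileT b D m (j0 + 1) f = f := by
            intro f
            unfold tileT
            rw [h5]
            simp
          have h7 : ∑ i ∈ Finset.range m, tileT b D i (j0 + 1) (δ i) = 0 := by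
            refine Finset.sum_eq_zero fun i hi => ?_
            have h8 : tileA b (i + 1) ≤ tileA b m := tileA_mono b (Finset.mem_range.1 hi)
            have h9 := tileA_succ b i
            have h10 : tileS b D i (j0 + 1) = none := by
              unfold tileS
              rw [if_neg (by omega), if_neg (by omega)]
            unfold tileT
            rw [h10]
            rfl
          rw [hρ]
          show (g (j0 + 1) - tileT b D m (j0 + 1) low -
            ∑ i ∈ Finset.range m, tileT b D i (j0 + 1) (δ i)).coeff l -
              (tileT b D m (j0 + 1) high).coeff l = 0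
          rw [h7, h6, h6, sub_zero, coeff_sub, hlow, hhigh, tileP_coeff, tileP_coeff,
            if_pos (by omega), if_neg (by omega)]
          ring
    · obtain ⟨δ, hδ1, hδ2⟩ := ih (by omega) g
      refine ⟨fun i => if i = m then 0 else δ i, ?_, ?_⟩
      · intro i hi
        by_cases him : i = m
        · simp [him]
        · simp only [if_neg him]
          exact hδ1 i (by omega)
      · intro j hj l hl _
        have h1 : tileA D (j + 1) ≤ tileA D c := tileA_mono D hj
        have h2 := tileA_succ D j
        have hsum : ∑ i ∈ Finset.range (m + 1),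
            tileT b D i j (if i = m then 0 else δ i) =
            ∑ i ∈ Finset.range m, tileT b D i j (δ i) := by
          rw [Finset.sum_range_succ, if_pos rfl, tileT_zero, add_zero]
          refine Finset.sum_congr rfl fun i hi => ?_
          rw [if_neg (by have := Finset.mem_range.1 hi; omega)]
        show (g j - ∑ i ∈ Finset.range (m + 1),
            tileT b D i j (if i = m then 0 else δ i)).coeff l = 0
        rw [hsum]
        exact hδ2 j hj l hl (by omega)

theorem tile {k : Type*} [Field k] (r c : ℕ) (b : Fin r → ℕ) (D : Fin c → ℕ)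
    (hord : ∀ (m : Fin r) (j : Fin c), (j : ℕ) ≤ m → b m ≤ D j)
    (hcount : ∑ j, (D j + 1) ≤ ∑ m, (b m + 1)) :
    ∃ s : Fin r → Fin c → Option ℕ,
      (∀ m j p, s m j = some p → (j : ℕ) ≤ m ∧ p + b m ≤ D j) ∧
      ∀ g : Fin c → k[X], (∀ j, (g j).natDegree ≤ D j) →
        ∃ δ : Fin r → k[X], (∀ m, (δ m).natDegree ≤ b m) ∧
          ∀ j, ∑ m, (s m j).elim 0 (fun p => X ^ p * δ m) = g j := by
  obtain ⟨b', hb'⟩ : ∃ b' : ℕ → ℕ, b' = fun i => if h : i < r then b ⟨i, h⟩ else 0 := ⟨_, rfl⟩
  obtain ⟨D', hD'⟩ : ∃ D' : ℕ → ℕ, D' = fun i => if h : i < c then D ⟨i, h⟩ else 0 := ⟨_, rfl⟩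
  have hb1 : ∀ m : Fin r, b' m = b m := fun m => by
    rw [hb']
    simp
  have hD1 : ∀ j : Fin c, D' j = D j := fun j => by
    rw [hD']
    simp
  have hord' : ∀ m < r, ∀ j < c, j ≤ m → b' m ≤ D' j := by
    intro m hm j hj h
    have h1 := hb1 ⟨m, hm⟩
    have h2 := hD1 ⟨j, hj⟩
    have h3 := hord ⟨m, hm⟩ ⟨j, hj⟩ h
    simp only at h1 h2
    rw [h1, h2]
    exact h3
  have hcount' : tileA D' c ≤ tileA b' r := by
    unfold tileA
    rw [Finset.sum_range, Finset.sum_range]
    simp only [hb1, hD1]
    exact hcount
  refine ⟨fun m j => tileS b' D' m j, fun m j p h => ?_, fun g hg => ?_⟩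
  · have h1 := tileS_spec hord' m.2 j.2 h
    rw [hb1, hD1] at h1
    exact h1
  · obtain ⟨δ, hδ1, hδ2⟩ := tile_main (k := k) hord' r le_rfl
      (fun j => if h : j < c then g ⟨j, h⟩ else 0)
    refine ⟨fun m => δ m, fun m => ?_, fun j => ?_⟩
    · have h1 := hδ1 m m.2
      rw [hb1] at h1
      exact h1
    · have h1 := hδ2 j j.2
      simp only [j.2, dite_true, Fin.eta] at h1
      have hsum : ∑ i ∈ Finset.range r, tileT b' D' i j (δ i) =
          ∑ m : Fin r, (tileS b' D' m j).elim 0 (fun p => X ^ p * δ m) := by
        rw [Finset.sum_range]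
        rfl
      rw [hsum, hD1] at h1
      have hBj : tileA D' (j + 1) ≤ tileA D' c := tileA_mono D' j.2
      have hBs := tileA_succ D' j
      rw [hD1] at hBs
      have hdeg : (g j - ∑ m : Fin r,
          (tileS b' D' m j).elim 0 (fun p => X ^ p * δ m)).natDegree ≤ D j := by
        refine (natDegree_sub_le _ _).trans (max_le (hg j) ?_)
        refine natDegree_sum_le_of_forall_le _ _ fun m _ => ?_
        cases hs : tileS b' D' m j with
        | none => simp
        | some p =>
          have h2 := (tileS_spec hord' m.2 j.2 hs).2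
          rw [hb1, hD1] at h2
          have h3 := hδ1 m m.2
          rw [hb1] at h3
          show (X ^ p * δ m).natDegree ≤ D j
          refine natDegree_mul_le.trans ?_
          rw [natDegree_X_pow]
          omega
      have hzero : g j - ∑ m : Fin r,
          (tileS b' D' m j).elim 0 (fun p => X ^ p * δ m) = 0 := by
        ext l
        rw [coeff_zero]
        by_cases hl : l ≤ D j
        · exact h1 l hl (by omega)
        · exact coeff_eq_zero_of_natDegree_lt (by omega)
      exact (sub_eq_zero.1 hzero).symm

end Pool.Agent.Lib.MP_1e3e9c_ag.RC
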