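import Mathlib

/-! # Val: a valuation ring that dominates `k[u]_(u)`

JOB Val (40 lines).  Let `A = Algebra.adjoin k {u}` as a subring of `L` (range of `aeval u : k[X] → L`).
The element `u` is not a unit of `A`: otherwise `u * aeval u p = 1` for some `p : k[X]`, so the polynomial
`X * p - 1 ≠ 0` (value `-1` at `0`) has the root `u`, but `u` is transcendental.  Let `P` be a maximal ideal of
`A` that contains `u` (`Ideal.exists_le_maximal`).  `LocalSubring.ofPrime A P` is a local subring of `L`; let
`V` be a valuation subring that dominates it (`LocalSubring.exists_le_valuationSubring` or the like, see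
Mathlib/RingTheory/Valuation/LocalSubring.lean).  Then `A ⊆ V` and `u ∈ P` is not a unit of the local subring,
so it is not a unit of `V` (domination is `IsLocalHom`), i.e. `u ∈ V.nonunits`. -/

set_option autoImplicit false

namespace Pool.Agent.Lib.MP_1e3e9c_ag.RC

theorem exists_val {k L : Type*} [Field k] [Field L] [Algebra k L] (u : L)
    (hu : Transcendental k u) :
    ∃ V : ValuationSubring L, (∀ c : k, algebraMap k L c ∈ V) ∧ u ∈ V.nonunits := by
  obtain ⟨A, hA⟩ : ∃ A : Subring L, ∀ x, x ∈ A ↔ ∃ p : Polynomial k, Polynomial.aeval u p = x :=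
    ⟨(Polynomial.aeval u : Polynomial k →ₐ[k] L).toRingHom.range, fun x => Iff.rfl⟩
  have huA : u ∈ A := (hA u).2 ⟨Polynomial.X, Polynomial.aeval_X u⟩
  have hne : Ideal.span {(⟨u, huA⟩ : A)} ≠ ⊤ := by
    intro h
    rw [Ideal.eq_top_iff_one, Ideal.mem_span_singleton'] at h
    obtain ⟨⟨a, ha⟩, h1⟩ := h
    obtain ⟨p, hp⟩ := (hA a).1 ha
    have h2 : a * u = 1 := congrArg Subtype.val h1
    have h3 : Polynomial.aeval u (Polynomial.X * p - 1) = 0 := by
      rw [map_sub, map_mul, Polynomial.aeval_X, map_one, hp, mul_comm, h2, sub_self]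
    have h4 : (Polynomial.X * p - 1 : Polynomial k) ≠ 0 := by
      intro h5
      have h6 := congrArg (Polynomial.eval 0) h5
      simp at h6
    exact h4 (transcendental_iff.1 hu _ h3)
  obtain ⟨V, hV1, hV2⟩ := Ideal.image_subset_nonunits_valuationSubring _ hne
  refine ⟨V, fun c => hV1 ((hA _).2 ⟨Polynomial.C c, Polynomial.aeval_C u c⟩), ?_⟩
  exact hV2 ⟨⟨u, huA⟩, Ideal.mem_span_singleton_self _, rfl⟩

end Pool.Agent.Lib.MP_1e3e9c_ag.RC
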