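import Pool.Agent.Lib.MP_1e3e9c_ag.RC.Defs

/-! # Spec: the special member

JOB Spec (60 lines).  Let
`F0 j = ∑ m, (s m j).elim 0 (fun p => X (y m) * X x ^ p * ∏ b, X (z b) ^ e b)` with
`e b = D j b - (if b = f m then a m else 0) - (if b = α then p else 0)` (`y m = Sum.inr (some m)`,
`x = Sum.inr none`, `z b = Sum.inl b`).  The monomial has the multidegree `D j`: in the factor `b` its degree is
`(if b = f m then a m else 0) + (if b = α then p else 0) + e b = D j b` (the hypothesis `hs`; distinguish
`b = α`, `b = f m`).  Evaluation at `pt g` (`z b ↦ 1`, `x ↦ X`, `y m ↦ g m`): `simp`. -/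

set_option autoImplicit false

namespace Pool.Agent.Lib.MP_1e3e9c_ag.RC

open Polynomial

/-- the point with the coordinates `z b = 1`, `x = X`, `y m = g m` -/
noncomputable def pt {B : Type*} {r : ℕ} {R : Type*} [CommRing R] (g : Fin r → R[X]) :
    Coord B r → R[X] :=
  Sum.elim (fun _ => 1) (fun o => o.elim X g)

theorem special {k B : Type*} [Field k] [Fintype B] [DecidableEq B] (r c : ℕ) (α : B)
    (f : Fin r → B) (a : Fin r → ℕ) (D : Fin c → B → ℕ) (s : Fin r → Fin c → Option ℕ)
    (hs : ∀ m j p, s m j = some p →
      a m ≤ D j (f m) ∧ p + (if f m = α then a m else 0) ≤ D j α) :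
    ∃ F0 : Fin c → MvPolynomial (Coord B r) k,
      (∀ j, (F0 j).IsWeightedHomogeneous (mdeg (fac α f) (wt a)) (D j)) ∧
      ∀ (g : Fin r → (PowerSeries k)[X]) (j : Fin c),
        MvPolynomial.aeval (pt g) (F0 j) = ∑ m, (s m j).elim 0 (fun p => X ^ p * g m) := by
  classical
  refine ⟨fun j => ∑ m, (s m j).elim 0 (fun p => MvPolynomial.X (Sum.inr (some m)) *
      MvPolynomial.X (Sum.inr none) ^ p *
      ∏ b, MvPolynomial.X (Sum.inl b) ^
        (D j b - (if b = f m then a m else 0) - (if b = α then p else 0))),
    fun j => ?_, fun g j => ?_⟩
  · refine (MvPolynomial.mem_weightedHomogeneousSubmodule k _ _ _).1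
      (Submodule.sum_mem _ fun m _ => ?_)
    rw [MvPolynomial.mem_weightedHomogeneousSubmodule]
    rcases hm : s m j with _ | p
    · exact MvPolynomial.isWeightedHomogeneous_zero k _ _
    · obtain ⟨h1, h2⟩ := hs m j p hm
      have e1 := MvPolynomial.isWeightedHomogeneous_X k (mdeg (fac α f) (wt a))
        (Sum.inr (some m) : Coord B r)
      have e2 := (MvPolynomial.isWeightedHomogeneous_X k (mdeg (fac α f) (wt a))
        (Sum.inr none : Coord B r)).pow p
      have e3 := MvPolynomial.IsWeightedHomogeneous.prod (R := k) Finset.univ
        (fun b => MvPolynomial.X (Sum.inl b : Coord B r) ^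
          (D j b - (if b = f m then a m else 0) - (if b = α then p else 0)))
        (fun b => (D j b - (if b = f m then a m else 0) - (if b = α then p else 0)) •
          mdeg (fac α f) (wt a) (Sum.inl b : Coord B r))
        (w := mdeg (fac α f) (wt a))
        (fun b _ => (MvPolynomial.isWeightedHomogeneous_X k (mdeg (fac α f) (wt a))
          (Sum.inl b : Coord B r)).pow _)
      have e4 := (e1.mul e2).mul e3
      have e5 : mdeg (fac α f) (wt a) (Sum.inr (some m) : Coord B r) +
          p • mdeg (fac α f) (wt a) (Sum.inr none : Coord B r) +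
          ∑ b, (D j b - (if b = f m then a m else 0) - (if b = α then p else 0)) •
            mdeg (fac α f) (wt a) (Sum.inl b : Coord B r) = D j := by
        funext b'
        have h3 : ∑ b, ((D j b - (if b = f m then a m else 0) - (if b = α then p else 0)) •
            mdeg (fac α f) (wt a) (Sum.inl b : Coord B r)) b' =
            D j b' - (if b' = f m then a m else 0) - (if b' = α then p else 0) := by
          rw [Finset.sum_eq_single b']
          · simp [mdeg, fac, wt]
          · intro b _ hb
            simp [mdeg, fac, wt, Pi.single_eq_of_ne (Ne.symm hb)]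
          · intro hb
            exact absurd (Finset.mem_univ _) hb
        rw [Pi.add_apply, Pi.add_apply, Finset.sum_apply, h3]
        have h4 : mdeg (fac α f) (wt a) (Sum.inr (some m) : Coord B r) b' =
            if b' = f m then a m else 0 := by
          simp [mdeg, fac, wt, Pi.single_apply]
        have h5 : (p • mdeg (fac α f) (wt a) (Sum.inr none : Coord B r)) b' =
            if b' = α then p else 0 := by
          simp [mdeg, fac, wt, Pi.single_apply]
        rw [h4, h5]
        by_cases hα : b' = α
        · subst hα
          by_cases hf : b' = f m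
          · rw [if_pos hf.symm] at h2
            rw [if_pos rfl, if_pos hf]
            omega
          · rw [if_neg (Ne.symm hf)] at h2
            rw [if_pos rfl, if_neg hf]
            omega
        · by_cases hf : b' = f m
          · rw [← hf] at h1
            rw [if_neg hα, if_pos hf]
            omega
          · rw [if_neg hα, if_neg hf]
            omega
      rw [e5] at e4
      exact e4
  · rw [map_sum]
    refine Finset.sum_congr rfl fun m _ => ?_
    rcases hm : s m j with _ | p
    · simp
    · simp only [Option.elim_some, map_mul, map_pow, map_prod, MvPolynomial.aeval_X]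
      simp only [pt, Sum.elim_inr, Sum.elim_inl, Option.elim_some, Option.elim_none, one_pow,
        Finset.prod_const_one, mul_one]
      ring

end Pool.Agent.Lib.MP_1e3e9c_ag.RC
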