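import Pool.Agent.Lib.MP_1e3e9c_ag.RC.Deg

/-! # Clear: if no point of X has a nontrivial stabiliser, the common zeros can be removed

JOB Clear (120 lines).  `aeval_scale` is imported.
Strong induction on `∑ i, (Q i).natDegree` over all curves `Q` on `X`.  If there is no `t0`, `b` with
`(Q i).eval t0 = 0` for all `i` with `fc i = b`, we are done.  Let `t0`, `b` be such; let
`e i = rootMultiplicity t0 (Q i)` (only used for `Q i ≠ 0`).
CLAIM: there is `p : ℕ`, `p > 0`, with `(X - C t0) ^ (p * w i) ∣ Q i` for all `i` with `fc i = b`.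
Given the claim, let `Q' i = Q i / (X - C t0) ^ (p * w i)` for `fc i = b` and `Q' i = Q i` for the other `i`.  By
`aeval_scale` (over `R = k[X]`, `lam b = (X - C t0) ^ p`, `lam b' = 1` for `b' ≠ b`):
`0 = aeval Q (F j) = (X - C t0) ^ (p * D j b) * aeval Q' (F j)`, so `aeval Q' (F j) = 0`.  `Q'` is again a
curve (in `nonconst` the two powers are multiplied by the same factor `(X - C t0) ^ (p * w i * w j)`), and the sum of
the degrees is smaller (some `Q i ≠ 0` with `fc i = b`, `w i > 0`, `p > 0`).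
PROOF OF THE CLAIM.  Let `W = ∏ i, w i > 0` and substitute `X ↦ C t0 + X ^ W`: `S i = (Q i).comp (C t0 + X ^ W)`.
For `Q i ≠ 0` one has `S i = X ^ (W * e i) * T i` with `T i` of nonzero constant coefficient (write
`Q i = (X - C t0) ^ e i * U i`, `U i` not zero at `t0`).  For every `b'` let `μ b' = min W * e i / w i` over the `i`
with `fc i = b'`, `Q i ≠ 0` (an integer as `w i ∣ W`; the minimum of finitely many rational numbers
`e i / w i`, attained at some `i`).  Then `X ^ (μ b' * w i) ∣ S i` for all `i` with `fc i = b'`; let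
`S i = X ^ (μ (fc i) * w i) * R i`.  By `aeval_scale` with `lam b' = X ^ μ b'` (over `k[X]`) and
`aeval S (F j) = (aeval Q (F j)).comp _ = 0` we get `aeval R (F j) = 0`.  Evaluate at `0`: the point
`x i = (R i).eval 0` satisfies `eval x (F j) = 0`, for every `b'` some `x i ≠ 0` with `fc i = b'` (where the
minimum is attained), and `x i ≠ 0` implies `Q i ≠ 0` and `W * e i = μ (fc i) * w i`.
Apply `hfree` to `x` and `b`: the `gcd` of the `w i` with `fc i = b`, `x i ≠ 0` is `1`.  As `W ∣ μ b * w i` for all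
these `i`, `W ∣ μ b * gcd = μ b` (e.g. `Finset.gcd`, `Finset.gcd_mul_left`, `Finset.dvd_gcd`).  So `μ b = W * p` and
`e i ≥ p * w i` for all `i` with `fc i = b`, `Q i ≠ 0`, i.e. `(X - C t0) ^ (p * w i) ∣ Q i`.  `p > 0`: for the `i` where
the minimum is attained `e i ≥ 1` (`Q i` vanishes at `t0`), so `μ b ≠ 0`. -/

set_option autoImplicit false

namespace Pool.Agent.Lib.MP_1e3e9c_ag.RC

open Polynomial

private theorem clear_div {k ι B J : Type*} [Field k] [Fintype ι] [Fintype B] [DecidableEq B]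
    (fc : ι → B) (w : ι → ℕ) (hw : ∀ i, 0 < w i) (F : J → MvPolynomial ι k) (D : J → B → ℕ)
    (hF : ∀ j, (F j).IsWeightedHomogeneous (mdeg fc w) (D j))
    (Q : ι → k[X]) (hQ : ∀ j, MvPolynomial.aeval Q (F j) = 0) (hC : IsCurve fc w Q)
    (t0 : k) (b : B) (p : ℕ) (hp : 0 < p)
    (hdvd : ∀ i, fc i = b → (X - C t0) ^ (p * w i) ∣ Q i) :
    ∃ Q' : ι → k[X], (∀ j, MvPolynomial.aeval Q' (F j) = 0) ∧ IsCurve fc w Q' ∧
      ∑ i, (Q' i).natDegree < ∑ i, (Q i).natDegree := by
  classical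
  set lam : B → k[X] := fun b' => if b' = b then (X - C t0) ^ p else 1 with hlam
  have hXC : (X - C t0 : k[X]) ≠ 0 := X_sub_C_ne_zero t0
  have hlam0 : ∀ b', lam b' ≠ 0 := by
    intro b'
    simp only [hlam]
    split_ifs
    · exact pow_ne_zero p hXC
    · exact one_ne_zero
  have hex : ∀ i, ∃ q : k[X], Q i = lam (fc i) ^ w i * q := by
    intro i
    by_cases h : fc i = b
    · obtain ⟨q, hq⟩ := hdvd i h
      refine ⟨q, ?_⟩
      simp only [hlam, if_pos h]
      rw [hq, pow_mul]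
    · refine ⟨Q i, ?_⟩
      simp only [hlam, if_neg h]
      rw [one_pow, one_mul]
  choose Q' hQ' using hex
  have hQfun : Q = fun i => lam (fc i) ^ w i * Q' i := funext hQ'
  have hne : ∀ i, Q i ≠ 0 → Q' i ≠ 0 := by
    intro i hi h0
    apply hi
    rw [hQ' i, h0, mul_zero]
  refine ⟨Q', ?_, ⟨?_, ?_⟩, ?_⟩
  · intro j
    have h1 := aeval_scale fc w (F j) (D j) (hF j) Q' lam
    rw [← hQfun, hQ j] at h1
    have h2 : (∏ b, lam b ^ D j b) ≠ 0 :=
      Finset.prod_ne_zero_iff.2 (fun b' _ => pow_ne_zero _ (hlam0 b'))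
    exact (mul_eq_zero.1 h1.symm).resolve_left h2
  · intro b'
    obtain ⟨i, hi, hi0⟩ := hC.ne_zero b'
    exact ⟨i, hi, hne i hi0⟩
  · obtain ⟨i, j, hij, hj0, hc⟩ := hC.nonconst
    refine ⟨i, j, hij, hne j hj0, ?_⟩
    intro c h
    apply hc c
    rw [hQ' i, hQ' j, mul_pow, mul_pow, h, hij, ← pow_mul, ← pow_mul, mul_comm (w i) (w j)]
    ring
  · have hle : ∀ i, (Q' i).natDegree ≤ (Q i).natDegree := by
      intro i
      by_cases hi : Q i = 0
      · have : Q' i = 0 := by
          have h1 := hQ' i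
          rw [hi] at h1
          exact (mul_eq_zero.1 h1.symm).resolve_left (pow_ne_zero _ (hlam0 _))
        rw [this, hi]
      · rw [hQ' i, natDegree_mul (pow_ne_zero _ (hlam0 _)) (hne i hi)]
        exact Nat.le_add_left _ _
    obtain ⟨i0, hi0, hQi0⟩ := hC.ne_zero b
    refine Finset.sum_lt_sum (fun i _ => hle i) ⟨i0, Finset.mem_univ _, ?_⟩
    rw [hQ' i0, natDegree_mul (pow_ne_zero _ (hlam0 _)) (hne i0 hQi0)]
    have h3 : 0 < (lam (fc i0) ^ w i0).natDegree := by
      simp only [hlam, if_pos hi0]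
      rw [natDegree_pow, natDegree_pow, natDegree_X_sub_C, mul_one]
      exact Nat.mul_pos (hw i0) hp
    omega

private theorem clear_claim {k ι B J : Type*} [Field k] [Fintype ι] [Fintype B] [DecidableEq B]
    (fc : ι → B) (w : ι → ℕ) (hw : ∀ i, 0 < w i) (F : J → MvPolynomial ι k) (D : J → B → ℕ)
    (hF : ∀ j, (F j).IsWeightedHomogeneous (mdeg fc w) (D j))
    (hfree : ∀ x : ι → k, (∀ j, MvPolynomial.eval x (F j) = 0) → (∀ b, ∃ i, fc i = b ∧ x i ≠ 0) →
      ∀ (b : B) (q : ℕ), (∀ i, fc i = b → x i ≠ 0 → q ∣ w i) → q = 1)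
    (Q : ι → k[X]) (hQ : ∀ j, MvPolynomial.aeval Q (F j) = 0) (hC : IsCurve fc w Q)
    (t0 : k) (b : B) (h0 : ∀ i, fc i = b → (Q i).eval t0 = 0) :
    ∃ p : ℕ, 0 < p ∧ ∀ i, fc i = b → (X - C t0) ^ (p * w i) ∣ Q i := by
  classical
  set W : ℕ := ∏ i, w i with hW
  have hWpos : 0 < W := Finset.prod_pos (fun i _ => hw i)
  have hwW : ∀ i, w i ∣ W := fun i => Finset.dvd_prod_of_mem w (Finset.mem_univ i)
  set e : ι → ℕ := fun i => rootMultiplicity t0 (Q i) with he
  set g : ι → ℕ := fun i => W / w i * e i with hg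
  have hwg : ∀ i, g i * w i = W * e i := by
    intro i
    simp only [hg]
    calc W / w i * e i * w i = (W / w i * w i) * e i := by ring
      _ = W * e i := by rw [Nat.div_mul_cancel (hwW i)]
  have hm : ∀ b' : B, ∃ i, fc i = b' ∧ Q i ≠ 0 ∧ ∀ j, fc j = b' → Q j ≠ 0 → g i ≤ g j := by
    intro b'
    obtain ⟨i1, hi1, hi1'⟩ := hC.ne_zero b'
    obtain ⟨i, hi, hmin⟩ := Finset.exists_min_image
      (Finset.univ.filter (fun i => fc i = b' ∧ Q i ≠ 0)) g
      ⟨i1, Finset.mem_filter.2 ⟨Finset.mem_univ _, hi1, hi1'⟩⟩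
    obtain ⟨_, h1, h2⟩ := Finset.mem_filter.1 hi
    exact ⟨i, h1, h2, fun j hj hj' => hmin j (Finset.mem_filter.2 ⟨Finset.mem_univ _, hj, hj'⟩)⟩
  choose m hm1 hm2 hm3 using hm
  set q0 : k[X] := C t0 + X ^ W with hq0
  have hU : ∀ i, ∃ U : k[X], Q i = (X - C t0) ^ e i * U ∧ (Q i ≠ 0 → U.eval t0 ≠ 0) := by
    intro i
    by_cases hi : Q i = 0
    · exact ⟨0, by rw [hi, mul_zero], fun h => absurd hi h⟩
    · obtain ⟨U, hU1, hU2⟩ := exists_eq_pow_rootMultiplicity_mul_and_not_dvd (Q i) hi t0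
      refine ⟨U, hU1, fun _ h => hU2 (dvd_iff_isRoot.2 h)⟩
  choose U hU1 hU2 using hU
  have hqX : Polynomial.aeval q0 (X - C t0 : k[X]) = X ^ W := by
    rw [map_sub, aeval_X, aeval_C, Polynomial.algebraMap_eq, hq0]
    ring
  set T : ι → k[X] := fun i => Polynomial.aeval q0 (U i) with hT
  have hT0 : ∀ i, Q i ≠ 0 → (T i).eval 0 ≠ 0 := by
    intro i hi
    have h1 : (T i).eval 0 = (U i).eval t0 := by
      simp only [hT]
      rw [← Polynomial.comp_eq_aeval, eval_comp, hq0, eval_add, eval_C, eval_pow, eval_X,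
        zero_pow hWpos.ne', add_zero]
    rw [h1]
    exact hU2 i hi
  set R : ι → k[X] := fun i => if Q i = 0 then 0 else X ^ (W * e i - g (m (fc i)) * w i) * T i
    with hR
  set lam : B → k[X] := fun b' => X ^ g (m b') with hlam
  have hS : ∀ i, Polynomial.aeval q0 (Q i) = lam (fc i) ^ w i * R i := by
    intro i
    by_cases hi : Q i = 0
    · simp only [hR, if_pos hi]
      rw [hi, map_zero, mul_zero]
    · simp only [hR, if_neg hi, hlam]
      have h1 : g (m (fc i)) * w i ≤ W * e i := by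
        rw [← hwg i]
        exact Nat.mul_le_mul_right _ (hm3 (fc i) i rfl hi)
      rw [← pow_mul, ← mul_assoc, ← pow_add, Nat.add_sub_cancel' h1]
      have h2 := congrArg (Polynomial.aeval q0) (hU1 i)
      rw [map_mul, map_pow, hqX, ← pow_mul] at h2
      exact h2
  have hRF : ∀ j, MvPolynomial.aeval R (F j) = 0 := by
    intro j
    have h1 := aeval_scale fc w (F j) (D j) (hF j) R lam
    have h2 : (fun i => lam (fc i) ^ w i * R i) = fun i => Polynomial.aeval q0 (Q i) :=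
      funext (fun i => (hS i).symm)
    rw [h2, ← MvPolynomial.comp_aeval_apply, hQ j, map_zero] at h1
    have h3 : (∏ b, lam b ^ D j b) ≠ 0 := by
      refine Finset.prod_ne_zero_iff.2 (fun b' _ => pow_ne_zero _ ?_)
      simp only [hlam]
      exact pow_ne_zero _ X_ne_zero
    exact (mul_eq_zero.1 h1.symm).resolve_left h3
  set x : ι → k := fun i => (R i).eval 0 with hx
  have hxF : ∀ j, MvPolynomial.eval x (F j) = 0 := by
    intro j
    have h1 := congrArg (Polynomial.aeval (0 : k)) (hRF j)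
    rw [MvPolynomial.comp_aeval_apply, map_zero] at h1
    have h2 : (fun i => Polynomial.aeval (0 : k) (R i)) = x := by
      funext i
      simp only [hx]
      rw [Polynomial.coe_aeval_eq_eval]
    rw [h2] at h1
    rw [← MvPolynomial.coe_aeval_eq_eval]
    exact h1
  have hxne : ∀ b', ∃ i, fc i = b' ∧ x i ≠ 0 := by
    intro b'
    refine ⟨m b', hm1 b', ?_⟩
    simp only [hx, hR, if_neg (hm2 b')]
    rw [hm1 b']
    have h1 : W * e (m b') - g (m b') * w (m b') = 0 := by
      rw [hwg (m b'), Nat.sub_self]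
    rw [h1, pow_zero, one_mul]
    exact hT0 _ (hm2 b')
  have hx2 : ∀ i, x i ≠ 0 → Q i ≠ 0 ∧ W * e i ≤ g (m (fc i)) * w i := by
    intro i hi
    have hQi : Q i ≠ 0 := by
      intro h
      apply hi
      simp only [hx, hR, if_pos h]
      exact eval_zero
    refine ⟨hQi, ?_⟩
    by_contra hlt
    apply hi
    simp only [hx, hR, if_neg hQi]
    rw [eval_mul, eval_pow, eval_X, zero_pow (by omega), zero_mul]
  have hWdvd : W ∣ g (m b) := by
    have hgcd : (Finset.univ.filter (fun i => fc i = b ∧ x i ≠ 0)).gcd w = 1 := by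
      refine hfree x hxF hxne b _ (fun i hi hi' => ?_)
      exact Finset.gcd_dvd (Finset.mem_filter.2 ⟨Finset.mem_univ _, hi, hi'⟩)
    have h1 : W ∣ (Finset.univ.filter (fun i => fc i = b ∧ x i ≠ 0)).gcd
        (fun i => g (m b) * w i) := by
      refine Finset.dvd_gcd (fun i hi => ?_)
      obtain ⟨_, h2, h3⟩ := Finset.mem_filter.1 hi
      obtain ⟨h4, h5⟩ := hx2 i h3
      have h6 : g (m (fc i)) * w i = W * e i := by
        refine le_antisymm ?_ h5
        rw [← hwg i]
        exact Nat.mul_le_mul_right _ (hm3 (fc i) i rfl h4)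
      rw [← h2, h6]
      exact dvd_mul_right _ _
    rw [Finset.gcd_mul_left, hgcd, mul_one, normalize_eq] at h1
    exact h1
  obtain ⟨p, hp⟩ := hWdvd
  refine ⟨p, ?_, ?_⟩
  · rcases Nat.eq_zero_or_pos p with h | h
    · exfalso
      rw [h, mul_zero] at hp
      have h1 := hwg (m b)
      rw [hp, zero_mul] at h1
      have h2 : e (m b) = 0 := by
        rcases Nat.mul_eq_zero.1 h1.symm with h3 | h3
        · omega
        · exact h3
      have h4 : 0 < e (m b) := by
        simp only [he]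
        exact (rootMultiplicity_pos (hm2 b)).2 (h0 (m b) (hm1 b))
      omega
    · exact h
  · intro i hi
    by_cases hQi : Q i = 0
    · rw [hQi]
      exact dvd_zero _
    · have h1 : W * (p * w i) ≤ W * e i := by
        rw [← hwg i, ← mul_assoc, ← hp]
        exact Nat.mul_le_mul_right _ (hm3 b i hi hQi)
      have h2 : p * w i ≤ e i := Nat.le_of_mul_le_mul_left h1 hWpos
      rw [hU1 i]
      exact Dvd.dvd.mul_right (pow_dvd_pow _ h2) _

theorem clear {k ι B J : Type*} [Field k] [Fintype ι] [Fintype B] [DecidableEq B]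
    (fc : ι → B) (w : ι → ℕ) (hw : ∀ i, 0 < w i) (F : J → MvPolynomial ι k) (D : J → B → ℕ)
    (hF : ∀ j, (F j).IsWeightedHomogeneous (mdeg fc w) (D j))
    (hfree : ∀ x : ι → k, (∀ j, MvPolynomial.eval x (F j) = 0) → (∀ b, ∃ i, fc i = b ∧ x i ≠ 0) →
      ∀ (b : B) (q : ℕ), (∀ i, fc i = b → x i ≠ 0 → q ∣ w i) → q = 1)
    (Q : ι → k[X]) (hQ : ∀ j, MvPolynomial.aeval Q (F j) = 0) (hC : IsCurve fc w Q) :
    ∃ Q' : ι → k[X], (∀ j, MvPolynomial.aeval Q' (F j) = 0) ∧ IsCurve fc w Q' ∧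
      ∀ (t : k) (b : B), ∃ i, fc i = b ∧ (Q' i).eval t ≠ 0 := by
  have key : ∀ n : ℕ, ∀ Q : ι → k[X], ∑ i, (Q i).natDegree = n →
      (∀ j, MvPolynomial.aeval Q (F j) = 0) → IsCurve fc w Q →
      ∃ Q' : ι → k[X], (∀ j, MvPolynomial.aeval Q' (F j) = 0) ∧ IsCurve fc w Q' ∧
        ∀ (t : k) (b : B), ∃ i, fc i = b ∧ (Q' i).eval t ≠ 0 := by
    intro n
    induction n using Nat.strong_induction_on with
    | _ n ih =>
      intro Q hn hQ hC
      by_cases h : ∀ (t : k) (b : B), ∃ i, fc i = b ∧ (Q i).eval t ≠ 0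
      · exact ⟨Q, hQ, hC, h⟩
      · push Not at h
        obtain ⟨t0, b, h0⟩ := h
        obtain ⟨p, hp, hdvd⟩ := clear_claim fc w hw F D hF hfree Q hQ hC t0 b h0
        obtain ⟨Q', h1, h2, h3⟩ := clear_div fc w hw F D hF Q hQ hC t0 b p hp hdvd
        exact ih _ (by rw [← hn]; exact h3) Q' rfl h1 h2
  exact key _ Q rfl hQ hC

end Pool.Agent.Lib.MP_1e3e9c_ag.RC
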