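import Mathlib

/-! # Rational curves on complete intersections in products of weighted projective spaces: definitions -/

set_option autoImplicit false

namespace Pool.Agent.Lib.MP_1e3e9c_ag.RC

open Polynomial

/-- The coordinates of a product of weighted projective spaces, one factor for every `b : B`:
`z b` (weight one, in the factor `b`), `x` (weight one, in the factor `α`), `y m` (`m < r`). -/
abbrev Coord (B : Type*) (r : ℕ) : Type _ := B ⊕ Option (Fin r)

/-- the factor in which a coordinate lies (`y m` lies in the factor `f m`) -/
def fac {B : Type*} {r : ℕ} (α : B) (f : Fin r → B) : Coord B r → B :=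
  Sum.elim id (fun o => o.elim α f)

/-- the weight of a coordinate (`y m` has the weight `a m`) -/
def wt {B : Type*} {r : ℕ} (a : Fin r → ℕ) : Coord B r → ℕ :=
  Sum.elim (fun _ => 1) (fun o => o.elim 1 a)

/-- multidegrees: the coordinate `i` lies in the factor `fc i` and has the degree `w i` there -/
def mdeg {ι B : Type*} [DecidableEq B] (fc : ι → B) (w : ι → ℕ) : ι → B → ℕ :=
  fun i => Pi.single (fc i) (w i)

/-- `P` is (given by homogeneous coordinates) a nonconstant rational map from the affine line to
the product of the weighted projective spaces: in every factor some coordinate is not zero, and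
some rational function `P i ^ w j / P j ^ w i` (`i`, `j` in the same factor) is not constant. -/
structure IsCurve {k ι B : Type*} [Field k] (fc : ι → B) (w : ι → ℕ) (P : ι → k[X]) : Prop where
  ne_zero : ∀ b : B, ∃ i, fc i = b ∧ P i ≠ 0
  nonconst : ∃ i j, fc i = fc j ∧ P j ≠ 0 ∧ ∀ c : k, P i ^ w j ≠ C c * P j ^ w i

end Pool.Agent.Lib.MP_1e3e9c_ag.RC
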