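import Pool.Agent.Lib.MP_1e3e9c_ag.RC.Defs

/-! # Desc: descent of a nonconstant solution to an algebraically closed field

JOB Desc (100 lines).  Let `e` be a bound for the degrees of all `P i` (`ι` finite), `ν = ι × Fin (e + 1)`,
`x : ν → κ`, `x (i, l) = coeff (P i) l`, and `U i = ∑_l C (X (i, l)) * X ^ l : (MvPolynomial ν k)[X]`.  For a
`k`-algebra `S` and a point `y : ν → S` put `U_y i = ∑_l C (y (i, l)) * X ^ l = Polynomial.map (aeval y) (U i)`; so
`U_x = P`.  `aeval U_y (F j) = Polynomial.map (aeval y) (aeval U (F j))`.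
Let `I` be the kernel of `aeval x : MvPolynomial ν k →ₐ[k] κ`, a prime ideal (`κ` is a field).  All the
coefficients of `aeval U (F j)` lie in `I`.
Open conditions: for every `b` choose `i_b` with `fc i_b = b`, `P i_b ≠ 0` and `l_b` with
`coeff (P i_b) l_b ≠ 0`: then `X (i_b, l_b) ∉ I`.  For the pair `i`, `j` of `hC.nonconst`: `P i ^ w j` and
`P j ^ w i` are linearly independent over `κ` (`P j ≠ 0`), hence there are `l`, `l'` with
`coeff (P i ^ w j) l * coeff (P j ^ w i) l' - coeff (P i ^ w j) l' * coeff (P j ^ w i) l ≠ 0` (otherwise, with `l'`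
a coefficient of `P j ^ w i` that is not zero, `P i ^ w j = C c * P j ^ w i`); the same expression `g` formed with
`U` is not in `I`; it forces `U_y j ≠ 0` as well if `w i ≠ 0`; to be safe choose also a coefficient of `P j`
that is not zero.  The product `g'` of all these elements is not in `I` (prime).
By the Nullstellensatz (`MvPolynomial.vanishingIdeal_zeroLocus_eq_radical`, `I` is radical) there is
`y : ν → k` in the zero locus of `I` with `eval y g' ≠ 0`.  `Q = U_y` is the solution. -/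

set_option autoImplicit false

namespace Pool.Agent.Lib.MP_1e3e9c_ag.RC

open Polynomial

/-- the generic polynomial with the coefficients `y (i, l)`, `l < n` -/
private noncomputable def genPoly {S ι : Type*} [CommSemiring S] {n : ℕ} (y : ι × Fin n → S)
    (i : ι) : S[X] :=
  ∑ l : Fin n, C (y (i, l)) * X ^ (l : ℕ)

private theorem genPoly_coeff {S ι : Type*} [CommSemiring S] {n : ℕ} (y : ι × Fin n → S)
    (i : ι) (l : Fin n) : (genPoly y i).coeff (l : ℕ) = y (i, l) := by
  unfold genPoly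
  rw [Polynomial.finsetSum_coeff, Finset.sum_eq_single l]
  · simp
  · intro b _ hb
    rw [Polynomial.coeff_C_mul_X_pow, if_neg]
    intro h
    exact hb (Fin.ext h.symm)
  · intro h
    exact absurd (Finset.mem_univ l) h

private theorem map_genPoly {S T ι : Type*} [CommSemiring S] [CommSemiring T] {n : ℕ}
    (f : S →+* T) (y : ι × Fin n → S) (i : ι) :
    Polynomial.map f (genPoly y i) = genPoly (fun p => f (y p)) i := by
  unfold genPoly
  rw [Polynomial.map_sum]
  exact Finset.sum_congr rfl fun l _ => by simp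

private theorem genPoly_self {S ι : Type*} [CommSemiring S] {n : ℕ} (P : ι → S[X])
    (h : ∀ i, (P i).natDegree < n) (i : ι) :
    genPoly (fun p : ι × Fin n => (P p.1).coeff (p.2 : ℕ)) i = P i := by
  unfold genPoly
  conv_rhs => rw [Polynomial.as_sum_range' (P i) n (h i)]
  rw [Finset.sum_range]
  exact Finset.sum_congr rfl fun l _ => by rw [Polynomial.C_mul_X_pow_eq_monomial]

private theorem exists_minor {κ : Type*} [Field κ] {A D : κ[X]} (hD : D ≠ 0)
    (h : ∀ c : κ, A ≠ C c * D) :
    ∃ l l' : ℕ, A.coeff l * D.coeff l' - A.coeff l' * D.coeff l ≠ 0 := by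
  obtain ⟨l', hl'⟩ : ∃ l', D.coeff l' ≠ 0 := by
    by_contra hcon
    push Not at hcon
    exact hD (Polynomial.ext fun n => by rw [hcon n, Polynomial.coeff_zero])
  by_contra hcon
  push Not at hcon
  refine h (A.coeff l' / D.coeff l') (Polynomial.ext fun l => ?_)
  have h1 := hcon l l'
  rw [Polynomial.coeff_C_mul, div_mul_eq_mul_div, eq_div_iff hl']
  exact sub_eq_zero.1 h1

private theorem coeff_mapAlgHom {k R S : Type*} [CommSemiring k] [CommSemiring R] [CommSemiring S]
    [Algebra k R] [Algebra k S] (ψ : R →ₐ[k] S) (q : R[X]) (m : ℕ) :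
    ψ (q.coeff m) = (Polynomial.mapAlgHom ψ q).coeff m := by
  show _ = (Polynomial.map _ q).coeff m
  rw [Polynomial.coeff_map]
  rfl

theorem descend {k κ ι B J : Type*} [Field k] [IsAlgClosed k] [Field κ] [Algebra k κ] [Finite ι]
    [Finite B] (fc : ι → B) (w : ι → ℕ) (F : J → MvPolynomial ι k) (P : ι → κ[X])
    (hP : ∀ j, MvPolynomial.aeval P (F j) = 0) (hC : IsCurve fc w P) :
    ∃ Q : ι → k[X], (∀ j, MvPolynomial.aeval Q (F j) = 0) ∧ IsCurve fc w Q := by
  classical
  cases nonempty_fintype ι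
  cases nonempty_fintype B
  set n : ℕ := (Finset.univ.sup fun i => (P i).natDegree) + 1 with hn
  have hdeg : ∀ i, (P i).natDegree < n := fun i =>
    Nat.lt_succ_of_le (Finset.le_sup (f := fun i => (P i).natDegree) (Finset.mem_univ i))
  let x : ι × Fin n → κ := fun p => (P p.1).coeff (p.2 : ℕ)
  let U : ι → (MvPolynomial (ι × Fin n) k)[X] := fun i =>
    genPoly (fun p : ι × Fin n => (MvPolynomial.X p : MvPolynomial (ι × Fin n) k)) i
  have hmapk : ∀ (y : ι × Fin n → k) (i : ι),
      Polynomial.mapAlgHom (MvPolynomial.aeval y : MvPolynomial (ι × Fin n) k →ₐ[k] k) (U i) =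
        genPoly y i := by
    intro y i
    show Polynomial.map _ (genPoly _ i) = _
    rw [map_genPoly]
    unfold genPoly
    exact Finset.sum_congr rfl fun l _ => by simp
  have hmapx : ∀ i,
      Polynomial.mapAlgHom (MvPolynomial.aeval x : MvPolynomial (ι × Fin n) k →ₐ[k] κ) (U i) =
        P i := by
    intro i
    refine Eq.trans ?_ (genPoly_self P hdeg i)
    show Polynomial.map _ (genPoly _ i) = _
    rw [map_genPoly]
    unfold genPoly
    exact Finset.sum_congr rfl fun l _ => by simp [x]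
  -- the prime ideal of the point `x`
  let φ : MvPolynomial (ι × Fin n) k →ₐ[k] κ := MvPolynomial.aeval x
  let I : Ideal (MvPolynomial (ι × Fin n) k) := RingHom.ker φ
  have hI : I.IsPrime := RingHom.ker_isPrime φ
  -- open conditions
  choose ib hib hPb using hC.ne_zero
  have hlb : ∀ b, ∃ l : Fin n, (P (ib b)).coeff (l : ℕ) ≠ 0 := by
    intro b
    refine ⟨⟨(P (ib b)).natDegree, hdeg (ib b)⟩, ?_⟩
    show (P (ib b)).leadingCoeff ≠ 0
    exact Polynomial.leadingCoeff_ne_zero.2 (hPb b)
  choose lb hlb using hlb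
  obtain ⟨i, j, hij, hPj, hne⟩ := hC.nonconst
  obtain ⟨l, l', hminor⟩ := exists_minor (pow_ne_zero (w i) hPj) hne
  let g : MvPolynomial (ι × Fin n) k :=
    (U i ^ w j).coeff l * (U j ^ w i).coeff l' - (U i ^ w j).coeff l' * (U j ^ w i).coeff l
  let lj : Fin n := ⟨(P j).natDegree, hdeg j⟩
  let g' : MvPolynomial (ι × Fin n) k :=
    (∏ b : B, MvPolynomial.X (ib b, lb b)) * (g * MvPolynomial.X (j, lj))
  have hgψ : ∀ (a b : ℕ) (m m' : ι) (l₁ l₂ : ℕ), φ ((U m ^ a).coeff l₁ * (U m' ^ b).coeff l₂) =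
      (P m ^ a).coeff l₁ * (P m' ^ b).coeff l₂ := by
    intro a b m m' l₁ l₂
    rw [map_mul, coeff_mapAlgHom, coeff_mapAlgHom, map_pow, map_pow, hmapx, hmapx]
  have hg : φ g ≠ 0 := by
    show φ (_ * _ - _ * _) ≠ 0
    rw [map_sub, hgψ, hgψ]
    exact hminor
  have hXx : ∀ p : ι × Fin n, φ (MvPolynomial.X p) = x p := fun p => MvPolynomial.aeval_X x p
  have hg' : φ g' ≠ 0 := by
    show φ (_ * (_ * _)) ≠ 0
    rw [map_mul, map_mul, map_prod]
    refine mul_ne_zero (Finset.prod_ne_zero_iff.2 fun b _ => ?_) (mul_ne_zero hg ?_)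
    · rw [hXx]
      exact hlb b
    · rw [hXx]
      show (P j).leadingCoeff ≠ 0
      exact Polynomial.leadingCoeff_ne_zero.2 hPj
  have hg'I : g' ∉ MvPolynomial.vanishingIdeal k (MvPolynomial.zeroLocus k I) := by
    rw [MvPolynomial.IsPrime.vanishingIdeal_zeroLocus]
    exact hg'
  rw [MvPolynomial.mem_vanishingIdeal_iff] at hg'I
  push Not at hg'I
  obtain ⟨y, hyI, hy⟩ := hg'I
  rw [MvPolynomial.mem_zeroLocus_iff] at hyI
  let ψ : MvPolynomial (ι × Fin n) k →ₐ[k] k := MvPolynomial.aeval y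
  have hψX : ∀ p : ι × Fin n, ψ (MvPolynomial.X p) = y p := fun p => MvPolynomial.aeval_X y p
  have hy' : ψ g' ≠ 0 := hy
  have hy1 : (∏ b : B, ψ (MvPolynomial.X (ib b, lb b))) * (ψ g * ψ (MvPolynomial.X (j, lj))) ≠ 0 := by
    rw [← map_prod, ← map_mul, ← map_mul]
    exact hy'
  have hyb : ∀ b, y (ib b, lb b) ≠ 0 := by
    intro b
    have h1 := Finset.prod_ne_zero_iff.1 (left_ne_zero_of_mul hy1) b (Finset.mem_univ b)
    rwa [hψX] at h1
  have hyg : ψ g ≠ 0 := left_ne_zero_of_mul (right_ne_zero_of_mul hy1)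
  have hyj : y (j, lj) ≠ 0 := by
    have h1 := right_ne_zero_of_mul (right_ne_zero_of_mul hy1)
    rwa [hψX] at h1
  refine ⟨fun i => genPoly y i, fun f => ?_, ?_, ?_⟩
  · -- the equations
    have h1 : MvPolynomial.aeval (fun i => genPoly y i) (F f) =
        Polynomial.mapAlgHom ψ (MvPolynomial.aeval U (F f)) := by
      rw [MvPolynomial.comp_aeval_apply]
      refine congrArg (fun z => MvPolynomial.aeval z (F f)) (funext fun i => ?_)
      exact (hmapk y i).symm
    rw [h1]
    refine Polynomial.ext fun m => ?_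
    rw [← coeff_mapAlgHom, Polynomial.coeff_zero]
    refine hyI _ ?_
    show φ _ = 0
    rw [coeff_mapAlgHom, MvPolynomial.comp_aeval_apply]
    have h2 : (fun i => Polynomial.mapAlgHom φ (U i)) = P := funext fun i => hmapx i
    have h3 : MvPolynomial.aeval (fun i => Polynomial.mapAlgHom φ (U i)) (F f) = 0 := by
      rw [h2]
      exact hP f
    rw [h3, Polynomial.coeff_zero]
  · intro b
    refine ⟨ib b, hib b, fun h0 => hyb b ?_⟩
    rw [← genPoly_coeff y (ib b) (lb b)]
    show (genPoly y (ib b)).coeff _ = 0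
    rw [h0, Polynomial.coeff_zero]
  · refine ⟨i, j, hij, fun h0 => hyj ?_, fun c hc => hyg ?_⟩
    · rw [← genPoly_coeff y j lj]
      show (genPoly y j).coeff _ = 0
      rw [h0, Polynomial.coeff_zero]
    · have hgψ' : ∀ (a b : ℕ) (m m' : ι) (l₁ l₂ : ℕ),
          ψ ((U m ^ a).coeff l₁ * (U m' ^ b).coeff l₂) =
          (genPoly y m ^ a).coeff l₁ * (genPoly y m' ^ b).coeff l₂ := by
        intro a b m m' l₁ l₂
        rw [map_mul, coeff_mapAlgHom, coeff_mapAlgHom, map_pow, map_pow, hmapk, hmapk]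
      show ψ (_ * _ - _ * _) = 0
      rw [map_sub, hgψ', hgψ']
      have hc' : genPoly y i ^ w j = C c * genPoly y j ^ w i := hc
      rw [hc', Polynomial.coeff_C_mul, Polynomial.coeff_C_mul]
      ring

end Pool.Agent.Lib.MP_1e3e9c_ag.RC
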