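import Mathlib

/-! # Disc: nonconstant rational curves specialise to nonconstant rational curves

JOB Disc (150 lines).  Write `|x| = V.valuation x`.  For `z : L` let `a_{i l} = coeff (f i)(X + z) l`, so that
`coeff ((f i).comp (C ρ * X + C z)) l = a_{i l} ρ^l`.
Suppose that the conclusion is false:
(*) for all `z`, `ρ ≠ 0`, `μ ≠ 0` with `|a_{i l} ρ^l| ≤ |μ|` for all `i`, `l`, and all `i j l l'`:
    `|c_{i l} c_{j l'} - c_{i l'} c_{j l}| < |μ|^2`, where `c_{i l} = a_{i l} ρ^l`
    (it is always `≤ |μ|^2`, so it is `≠` iff it is `<`).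
Let `d` be the maximum of the degrees of the `f i`, `m` an index for which `|coeff (f m) d|` is maximal among
all `|coeff (f i) d|`; so `coeff (f m) d ≠ 0` (`f i0 ≠ 0`, so some `f i ≠ 0`).
Fix `z`.  Say `St l` if `a_{m l} ≠ 0` and there is `ρ ≠ 0` with `|a_{i l'} ρ^{l'}| ≤ |a_{m l} ρ^l|` for all `i`, `l'`.
(1) `St d`: `a_{i l'} = 0` for `l' > d`, `a_{i d} = coeff (f i) d`.  Let `|ρ|` be the maximum of `1` and of the
 finitely many `|a_{i l'} / a_{m d}|` (`l' < d`): then `|ρ|^{d-l'} ≥ |ρ| ≥ |a_{i l'}/a_{m d}|`.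
(2) If `St l` (with `ρ`) and some `a_{i' l'} ≠ 0` with `l' < l`, then `St l''` for some `l'' < l`.  For every pair
 `(i', l')` with `l' < l` and `a_{i' l'} ≠ 0` choose `ρ_{i' l'}` with `ρ_{i' l'}^{l - l'} = a_{i' l'} / a_{m l}`
 (`IsAlgClosed.exists_pow_nat_eq`); take the pair with the largest `|ρ_{i' l'}|` and let `ρ' = ρ_{i' l'}`
 (`≠ 0`).  `|ρ'| ≤ |ρ|` because `|a_{i' l'}| |ρ|^{l'} ≤ |a_{m l}| |ρ|^l`.  With `μ = a_{m l} ρ'^l` one has
 `|a_{i l1} ρ'^{l1}| ≤ |μ|` for all `i`, `l1`: for `l1 < l` by the choice of `ρ'`; for `l1 ≥ l` since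
 `|a_{i l1}| |ρ'|^{l1 - l} ≤ |a_{i l1}| |ρ|^{l1 - l} ≤ |a_{m l}|`.  Also `|c_{m l}| = |μ| = |c_{i' l'}|`.
 By (*) for `(m, i', l, l')`: `|c_{m l} c_{i' l'} - c_{m l'} c_{i' l}| < |μ|^2`, so
 `|c_{m l'} c_{i' l}| = |μ|^2` and as both are `≤ |μ|`, `|c_{m l'}| = |μ|`: this is `St l'` (with `ρ'`).
(3) Take the least `l` with `St l`: then `a_{i l'} = 0` for all `i` and `l' < l`, and `a_{m l} ≠ 0`.  Hence
 `rootMultiplicity z (f m) ≤ rootMultiplicity z (f i)` for all `i` with `f i ≠ 0`, for every `z`.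
So `(f m).roots ≤ (f i).roots`, `f m ∣ f i` (`L` is algebraically closed) for all `i`, and the degree of `f i` is
at most that of `f m`: `f i = C (c i) * f m`.  This contradicts `h0`, `h1`. -/

set_option autoImplicit false

namespace Pool.Agent.Lib.MP_1e3e9c_ag.RC

open Polynomial

private theorem disc_step {L : Type*} [Field L] [IsAlgClosed L] (V : ValuationSubring L)
    {n : Type*} [Fintype n] (a : n → ℕ → L) (m : n)
    (hneg : ∀ (ρ μ : L), ρ ≠ 0 → μ ≠ 0 → (∀ i l, V.valuation (a i l * ρ ^ l) ≤ V.valuation μ) →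
      ∀ i j l l', V.valuation (a i l * ρ ^ l * (a j l' * ρ ^ l') -
        a i l' * ρ ^ l' * (a j l * ρ ^ l)) ≠ V.valuation μ ^ 2)
    (l : ℕ) (hl : a m l ≠ 0) (ρ : L) (hρ : ρ ≠ 0)
    (hst : ∀ i l', V.valuation (a i l' * ρ ^ l') ≤ V.valuation (a m l * ρ ^ l))
    (i1 : n) (l1 : ℕ) (h1 : l1 < l) (ha1 : a i1 l1 ≠ 0) :
    ∃ l'', l'' < l ∧ a m l'' ≠ 0 ∧ ∃ ρ' : L, ρ' ≠ 0 ∧
      ∀ i l', V.valuation (a i l' * ρ' ^ l') ≤ V.valuation (a m l'' * ρ' ^ l'') := by
  classical
  have hR0 : ∀ (i : n) (l' : ℕ), ∃ r : L, l' < l → r ^ (l - l') = a i l' / a m l := by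
    intro i l'
    by_cases h : l' < l
    · obtain ⟨r, hr⟩ := IsAlgClosed.exists_pow_nat_eq (a i l' / a m l) (Nat.sub_pos_of_lt h)
      exact ⟨r, fun _ => hr⟩
    · exact ⟨0, fun h' => absurd h' h⟩
  choose R hR using hR0
  obtain ⟨p, hp, hmax⟩ := Finset.exists_max_image
    (((Finset.univ : Finset n) ×ˢ Finset.range l).filter fun p => a p.1 p.2 ≠ 0)
    (fun p => V.valuation (R p.1 p.2))
    ⟨(i1, l1), by
      rw [Finset.mem_filter, Finset.mem_product]
      exact ⟨⟨Finset.mem_univ _, Finset.mem_range.2 h1⟩, ha1⟩⟩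
  obtain ⟨i2, l2⟩ := p
  rw [Finset.mem_filter, Finset.mem_product] at hp
  have hl2 : l2 < l := Finset.mem_range.1 hp.1.2
  have ha2 : a i2 l2 ≠ 0 := hp.2
  simp only [Finset.mem_filter, Finset.mem_product, Finset.mem_univ, Finset.mem_range, true_and,
    Prod.forall] at hmax
  have hρ2 : R i2 l2 ≠ 0 := by
    intro h
    have h3 := hR i2 l2 hl2
    rw [h, zero_pow (Nat.sub_pos_of_lt hl2).ne'] at h3
    exact div_ne_zero ha2 hl h3.symm
  -- the valuations
  have hvm : V.valuation (a m l) ≠ 0 := (Valuation.ne_zero_iff _).2 hl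
  have hvρ : V.valuation ρ ≠ 0 := (Valuation.ne_zero_iff _).2 hρ
  have hvρ2 : V.valuation (R i2 l2) ≠ 0 := (Valuation.ne_zero_iff _).2 hρ2
  have hRv : ∀ i l', l' < l →
      V.valuation (a i l') = V.valuation (a m l) * V.valuation (R i l') ^ (l - l') := by
    intro i l' h
    rw [← map_pow, hR i l' h, ← map_mul, mul_div_cancel₀ _ hl]
  have hle : V.valuation (R i2 l2) ≤ V.valuation ρ := by
    have h3 := hst i2 l2
    rw [map_mul, map_mul, map_pow, map_pow, hRv i2 l2 hl2, mul_assoc] at h3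
    have h4 := le_of_mul_le_mul_left h3 (zero_lt_iff.2 hvm)
    have h5 : V.valuation ρ ^ l = V.valuation ρ ^ (l - l2) * V.valuation ρ ^ l2 := by
      rw [← pow_add, Nat.sub_add_cancel hl2.le]
    rw [h5] at h4
    have h6 := le_of_mul_le_mul_right h4 (zero_lt_iff.2 (pow_ne_zero _ hvρ))
    exact (pow_le_pow_iff_left₀ zero_le zero_le (Nat.sub_pos_of_lt hl2).ne').1 h6
  have hμ : a m l * R i2 l2 ^ l ≠ 0 := mul_ne_zero hl (pow_ne_zero _ hρ2)
  have hall : ∀ i l', V.valuation (a i l' * R i2 l2 ^ l') ≤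
      V.valuation (a m l * R i2 l2 ^ l) := by
    intro i l'
    by_cases h : l' < l
    · by_cases h0 : a i l' = 0
      · rw [h0, zero_mul, map_zero]
        exact zero_le
      · have h3 : V.valuation (R i l') ≤ V.valuation (R i2 l2) := hmax i l' ⟨h, h0⟩
        rw [map_mul, map_mul, map_pow, map_pow, hRv i l' h, mul_assoc]
        have h5 : V.valuation (R i2 l2) ^ l =
            V.valuation (R i2 l2) ^ (l - l') * V.valuation (R i2 l2) ^ l' := by
          rw [← pow_add, Nat.sub_add_cancel h.le]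
        rw [h5]
        exact mul_le_mul_right (mul_le_mul_left (pow_le_pow_left₀ zero_le h3 _) _) _
    · have h' : l ≤ l' := not_lt.1 h
      have h3 := hst i l'
      rw [map_mul, map_mul, map_pow, map_pow] at h3
      have h5 : V.valuation ρ ^ l' = V.valuation ρ ^ (l' - l) * V.valuation ρ ^ l := by
        rw [← pow_add, Nat.sub_add_cancel h']
      rw [h5, ← mul_assoc] at h3
      have h6 := le_of_mul_le_mul_right h3 (zero_lt_iff.2 (pow_ne_zero _ hvρ))
      have h7 : V.valuation (R i2 l2) ^ l' =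
          V.valuation (R i2 l2) ^ (l' - l) * V.valuation (R i2 l2) ^ l := by
        rw [← pow_add, Nat.sub_add_cancel h']
      rw [map_mul, map_mul, map_pow, map_pow, h7, ← mul_assoc]
      refine mul_le_mul_left (le_trans ?_ h6) _
      exact mul_le_mul_right (pow_le_pow_left₀ zero_le hle _) _
  have hv2 : V.valuation (a i2 l2 * R i2 l2 ^ l2) = V.valuation (a m l * R i2 l2 ^ l) := by
    rw [map_mul, map_mul, map_pow, map_pow, hRv i2 l2 hl2, mul_assoc, ← pow_add,
      Nat.sub_add_cancel hl2.le]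
  have hno := hneg (R i2 l2) (a m l * R i2 l2 ^ l) hρ2 hμ hall m i2 l l2
  have hvμ : V.valuation (a m l * R i2 l2 ^ l) ≠ 0 := (Valuation.ne_zero_iff _).2 hμ
  have hge : V.valuation (a m l * R i2 l2 ^ l) ^ 2 ≤
      V.valuation (a m l2 * R i2 l2 ^ l2 * (a i2 l * R i2 l2 ^ l)) := by
    by_contra hlt
    rw [not_le] at hlt
    apply hno
    have h3 : V.valuation (a m l * R i2 l2 ^ l * (a i2 l2 * R i2 l2 ^ l2)) =
        V.valuation (a m l * R i2 l2 ^ l) ^ 2 := by
      rw [map_mul, hv2, sq]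
    rw [← h3] at hlt ⊢
    exact Valuation.map_sub_eq_of_lt_left _ hlt
  have hml2 : V.valuation (a m l2 * R i2 l2 ^ l2) = V.valuation (a m l * R i2 l2 ^ l) := by
    apply le_antisymm (hall m l2)
    rw [map_mul, sq] at hge
    have h3 : V.valuation (a m l * R i2 l2 ^ l) * V.valuation (a m l * R i2 l2 ^ l) ≤
        V.valuation (a m l2 * R i2 l2 ^ l2) * V.valuation (a m l * R i2 l2 ^ l) :=
      le_trans hge (mul_le_mul_right (hall i2 l) _)
    exact le_of_mul_le_mul_right h3 (zero_lt_iff.2 hvμ)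
  refine ⟨l2, hl2, ?_, R i2 l2, hρ2, ?_⟩
  · intro h
    rw [h, zero_mul, map_zero] at hml2
    exact hvμ hml2.symm
  · intro i l'
    rw [hml2]
    exact hall i l'

private theorem disc_start {L : Type*} [Field L] (V : ValuationSubring L)
    {n : Type*} [Fintype n] (a : n → ℕ → L) (m : n) (d : ℕ) (hd : a m d ≠ 0)
    (hm : ∀ i, V.valuation (a i d) ≤ V.valuation (a m d)) (hz : ∀ i l, d < l → a i l = 0) :
    ∃ ρ : L, ρ ≠ 0 ∧ ∀ i l', V.valuation (a i l' * ρ ^ l') ≤ V.valuation (a m d * ρ ^ d) := by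
  classical
  have hvm : V.valuation (a m d) ≠ 0 := (Valuation.ne_zero_iff _).2 hd
  obtain ⟨ρ, hρ, hmax⟩ := Finset.exists_max_image
    (insert (1 : L) (Finset.image (fun p : n × ℕ => a p.1 p.2 / a m d)
      ((Finset.univ : Finset n) ×ˢ Finset.range d))) (fun x => V.valuation x)
    ⟨1, Finset.mem_insert_self _ _⟩
  have h1 : 1 ≤ V.valuation ρ := by
    have h2 := hmax 1 (Finset.mem_insert_self _ _)
    simpa using h2
  have h2 : ∀ i l', l' < d → V.valuation (a i l') ≤ V.valuation (a m d) * V.valuation ρ := by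
    intro i l' h
    have h3 := hmax (a i l' / a m d) (Finset.mem_insert_of_mem (Finset.mem_image.2
      ⟨(i, l'), Finset.mem_product.2 ⟨Finset.mem_univ _, Finset.mem_range.2 h⟩, rfl⟩))
    have h4 : V.valuation (a i l') = V.valuation (a m d) * V.valuation (a i l' / a m d) := by
      rw [← map_mul, mul_div_cancel₀ _ hd]
    rw [h4]
    exact mul_le_mul_right h3 _
  refine ⟨ρ, ?_, ?_⟩
  · intro h
    rw [h, map_zero] at h1
    exact absurd h1 (not_le.2 zero_lt_one)
  · intro i l'
    rcases lt_trichotomy l' d with h | h | h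
    · rw [map_mul, map_mul, map_pow, map_pow]
      have h5 : V.valuation ρ ^ d = V.valuation ρ ^ (d - l') * V.valuation ρ ^ l' := by
        rw [← pow_add, Nat.sub_add_cancel h.le]
      rw [h5, ← mul_assoc]
      refine mul_le_mul_left (le_trans (h2 i l' h) (mul_le_mul_right ?_ _)) _
      have h6 : V.valuation ρ ^ 1 ≤ V.valuation ρ ^ (d - l') :=
        pow_le_pow_right₀ h1 (Nat.sub_pos_of_lt h)
      rwa [pow_one] at h6
    · rw [h, map_mul, map_mul]
      exact mul_le_mul_left (hm i) _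
    · rw [hz i l' h, zero_mul, map_zero]
      exact zero_le

theorem disc {L : Type*} [Field L] [IsAlgClosed L] (V : ValuationSubring L) {n : Type*} [Finite n]
    (f : n → L[X]) (i0 i1 : n) (h0 : f i0 ≠ 0) (h1 : ∀ c : L, f i1 ≠ C c * f i0) :
    ∃ z ρ μ : L, ρ ≠ 0 ∧ μ ≠ 0 ∧
      (∀ i l, V.valuation (((f i).comp (C ρ * X + C z)).coeff l) ≤ V.valuation μ) ∧
      ∃ i j l l', V.valuation
        (((f i).comp (C ρ * X + C z)).coeff l * ((f j).comp (C ρ * X + C z)).coeff l' -
          ((f i).comp (C ρ * X + C z)).coeff l' * ((f j).comp (C ρ * X + C z)).coeff l)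
        = V.valuation μ ^ 2 := by
  classical
  cases nonempty_fintype n
  by_contra hcon
  have hcoef : ∀ (z ρ : L) (i : n) (l : ℕ), ((f i).comp (C ρ * X + C z)).coeff l =
      ((f i).comp (X + C z)).coeff l * ρ ^ l := by
    intro z ρ i l
    rw [← comp_C_mul_X_coeff, comp_assoc]
    simp
  have hneg : ∀ (z ρ μ : L), ρ ≠ 0 → μ ≠ 0 →
      (∀ i l, V.valuation (((f i).comp (X + C z)).coeff l * ρ ^ l) ≤ V.valuation μ) →
      ∀ i j l l', V.valuation (((f i).comp (X + C z)).coeff l * ρ ^ l *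
        (((f j).comp (X + C z)).coeff l' * ρ ^ l') -
        ((f i).comp (X + C z)).coeff l' * ρ ^ l' *
        (((f j).comp (X + C z)).coeff l * ρ ^ l)) ≠ V.valuation μ ^ 2 := by
    intro z ρ μ hρ hμ hle i j l l' he
    apply hcon
    refine ⟨z, ρ, μ, hρ, hμ, ?_, i, j, l, l', ?_⟩
    · intro i l
      rw [hcoef]
      exact hle i l
    · simp only [hcoef]
      exact he
  have hnn : Nonempty n := ⟨i0⟩
  obtain ⟨m0, hm0⟩ := Finite.exists_max (fun i => (f i).natDegree)
  obtain ⟨m, hm⟩ := Finite.exists_max (fun i => V.valuation ((f i).coeff (f m0).natDegree))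
  have hdne : ∃ i, (f i).coeff (f m0).natDegree ≠ 0 := by
    by_cases h : (f i0).natDegree = (f m0).natDegree
    · refine ⟨i0, ?_⟩
      rw [← h]
      exact leadingCoeff_ne_zero.2 h0
    · have h2 : (f i0).natDegree < (f m0).natDegree := lt_of_le_of_ne (hm0 i0) h
      refine ⟨m0, ?_⟩
      apply leadingCoeff_ne_zero.2
      intro h3
      rw [h3, natDegree_zero] at h2
      exact absurd h2 (Nat.not_lt_zero _)
  have hdm : (f m).coeff (f m0).natDegree ≠ 0 := by
    obtain ⟨i, hi⟩ := hdne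
    intro h
    have h2 := hm i
    simp only [h, map_zero] at h2
    exact hi ((Valuation.zero_iff _).1 (le_antisymm h2 zero_le))
  have hmdeg : (f m).natDegree = (f m0).natDegree :=
    le_antisymm (hm0 m) (le_natDegree_of_ne_zero hdm)
  have hfm : f m ≠ 0 := by
    intro h
    rw [h, coeff_zero] at hdm
    exact hdm rfl
  have htop : ∀ z i, ((f i).comp (X + C z)).coeff (f m0).natDegree =
      (f i).coeff (f m0).natDegree := by
    intro z i
    rw [← taylor_apply]
    by_cases h : (f i).natDegree = (f m0).natDegree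
    · rw [← h, coeff_taylor_natDegree]
      rfl
    · have h2 : (f i).natDegree < (f m0).natDegree := lt_of_le_of_ne (hm0 i) h
      rw [coeff_eq_zero_of_natDegree_lt h2, coeff_eq_zero_of_natDegree_lt]
      rw [natDegree_taylor]
      exact h2
  have hhi : ∀ z i l, (f m0).natDegree < l → ((f i).comp (X + C z)).coeff l = 0 := by
    intro z i l hl
    rw [← taylor_apply]
    apply coeff_eq_zero_of_natDegree_lt
    rw [natDegree_taylor]
    exact lt_of_le_of_lt (hm0 i) hl
  have hroot : ∀ z i, f i ≠ 0 → rootMultiplicity z (f m) ≤ rootMultiplicity z (f i) := by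
    intro z i hi
    have hex : ∃ l, ((f m).comp (X + C z)).coeff l ≠ 0 ∧ ∃ ρ : L, ρ ≠ 0 ∧
        ∀ i l', V.valuation (((f i).comp (X + C z)).coeff l' * ρ ^ l') ≤
          V.valuation (((f m).comp (X + C z)).coeff l * ρ ^ l) := by
      refine ⟨(f m0).natDegree, ?_, ?_⟩
      · rw [htop]
        exact hdm
      · apply disc_start V (fun i l => ((f i).comp (X + C z)).coeff l) m (f m0).natDegree
        · simp only [htop]
          exact hdm
        · intro i
          simp only [htop]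
          exact hm i
        · intro i l hl
          exact hhi z i l hl
    have hspec := Nat.find_spec hex
    obtain ⟨ha, ρ, hρ, hst⟩ := hspec
    have hlow : ∀ i' l', l' < Nat.find hex → ((f i').comp (X + C z)).coeff l' = 0 := by
      intro i' l' hl'
      by_contra hne
      obtain ⟨l'', hl'', h3, h4⟩ := disc_step V (fun i l => ((f i).comp (X + C z)).coeff l) m
        (hneg z) (Nat.find hex) ha ρ hρ hst i' l' hl' hne
      exact Nat.find_min hex hl'' ⟨h3, h4⟩
    rw [rootMultiplicity_eq_natTrailingDegree, rootMultiplicity_eq_natTrailingDegree]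
    refine le_trans (natTrailingDegree_le_of_ne_zero ha) (le_natTrailingDegree ?_ ?_)
    · rw [← taylor_apply, Ne, taylor_eq_zero]
      exact hi
    · intro l hl
      exact hlow i l hl
  have hC : ∀ i, ∃ c : L, f i = C c * f m := by
    intro i
    by_cases hi : f i = 0
    · exact ⟨0, by rw [hi, C_0, zero_mul]⟩
    · have hdvd : f m ∣ f i := by
        rw [IsAlgClosed.dvd_iff_roots_le_roots hfm hi, Multiset.le_iff_count]
        intro z
        rw [count_roots, count_roots]
        exact hroot z i hi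
      obtain ⟨q, hq⟩ := hdvd
      have hq0 : q ≠ 0 := by
        intro h
        apply hi
        rw [hq, h, mul_zero]
      have hdq : q.natDegree = 0 := by
        have h3 := natDegree_mul hfm hq0
        rw [← hq, hmdeg] at h3
        have h4 := hm0 i
        omega
      refine ⟨q.coeff 0, ?_⟩
      rw [hq, mul_comm]
      congr 1
      exact eq_C_of_natDegree_eq_zero hdq
  obtain ⟨c0, hc0⟩ := hC i0
  obtain ⟨c1, hc1⟩ := hC i1
  have hc0' : c0 ≠ 0 := by
    intro h
    apply h0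
    rw [hc0, h, C_0, zero_mul]
  apply h1 (c1 / c0)
  rw [hc0, hc1, ← mul_assoc, ← C_mul, div_mul_cancel₀ _ hc0']

end Pool.Agent.Lib.MP_1e3e9c_ag.RC
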