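import Mathlib

/-! # Fix: fixed points of contractions over the power series ring

JOB Fix (50 lines).  `R = PowerSeries k`, `τ = PowerSeries.X`.  Put `V_0 = 0`,
`V_{n+1} t = τ * aeval V_n (G t)`.  By induction `τ^{n+1} ∣ V_{n+1} t - V_n t` for all `t`: polynomials
preserve congruences (if `I` is the ideal `(τ^n)` and `x t ≡ y t` mod `I` for all `t` then `aeval x G ≡ aeval y G`
mod `I`: compose with `Ideal.Quotient.mk I` and use `MvPolynomial.aeval`/`eval₂_hom` functoriality).  Let
`V t = PowerSeries.mk fun n => coeff n (V_{n+1} t)`.  Then `τ^n ∣ V t - V_n t`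
(`PowerSeries.X_pow_dvd_iff`: all the coefficients below `n` agree).  So
`V t - τ * aeval V (G t) = (V t - V_{n+1} t) + τ * (aeval V_n (G t) - aeval V (G t))` is divisible by `τ^{n+1}` for
every `n`, hence zero. -/

set_option autoImplicit false

namespace Pool.Agent.Lib.MP_1e3e9c_ag.RC

/-- Polynomials preserve congruences. -/
theorem fix_cong {k T : Type*} [Field k] (x y : T → PowerSeries k) (n : ℕ)
    (h : ∀ t, (PowerSeries.X : PowerSeries k) ^ n ∣ x t - y t) (G : MvPolynomial T k) :
    (PowerSeries.X : PowerSeries k) ^ n ∣ MvPolynomial.aeval x G - MvPolynomial.aeval y G := by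
  induction G using MvPolynomial.induction_on with
  | C a => simp
  | add p q hp hq =>
    have h1 := dvd_add hp hq
    have h2 : MvPolynomial.aeval x (p + q) - MvPolynomial.aeval y (p + q)
        = (MvPolynomial.aeval x p - MvPolynomial.aeval y p)
          + (MvPolynomial.aeval x q - MvPolynomial.aeval y q) := by
      rw [map_add, map_add]; ring
    rw [h2]; exact h1
  | mul_X p t hp =>
    have h2 : MvPolynomial.aeval x (p * MvPolynomial.X t) - MvPolynomial.aeval y (p * MvPolynomial.X t)
        = (MvPolynomial.aeval x p - MvPolynomial.aeval y p) * x t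
          + MvPolynomial.aeval y p * (x t - y t) := by
      rw [map_mul, map_mul, MvPolynomial.aeval_X, MvPolynomial.aeval_X]; ring
    rw [h2]
    exact dvd_add (Dvd.dvd.mul_right hp _) (Dvd.dvd.mul_left (h t) _)

/-- The successive approximations. -/
noncomputable def fixSeq {k T : Type*} [Field k] (G : T → MvPolynomial T k) :
    ℕ → T → PowerSeries k
  | 0 => fun _ => 0
  | (n + 1) => fun t => PowerSeries.X * MvPolynomial.aeval (fixSeq G n) (G t)

theorem fixSeq_succ {k T : Type*} [Field k] (G : T → MvPolynomial T k) (n : ℕ) (t : T) :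
    fixSeq G (n + 1) t = PowerSeries.X * MvPolynomial.aeval (fixSeq G n) (G t) := rfl

theorem fixSeq_step {k T : Type*} [Field k] (G : T → MvPolynomial T k) (n : ℕ) (t : T) :
    (PowerSeries.X : PowerSeries k) ^ n ∣ fixSeq G (n + 1) t - fixSeq G n t := by
  induction n generalizing t with
  | zero => simp
  | succ n ih =>
    rw [fixSeq_succ G (n + 1), fixSeq_succ G n, ← mul_sub, pow_succ']
    exact mul_dvd_mul_left _ (fix_cong _ _ n (fun t => ih t) (G t))

theorem fixSeq_le {k T : Type*} [Field k] (G : T → MvPolynomial T k) (n m : ℕ) (hm : n ≤ m) (t : T) :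
    (PowerSeries.X : PowerSeries k) ^ n ∣ fixSeq G m t - fixSeq G n t := by
  induction m, hm using Nat.le_induction with
  | base => simp
  | succ m hm ih =>
    have h1 := dvd_add (dvd_trans (pow_dvd_pow _ hm) (fixSeq_step G m t)) ih
    rw [sub_add_sub_cancel] at h1
    exact h1

theorem fix {k T : Type*} [Field k] (G : T → MvPolynomial T k) :
    ∃ V : T → PowerSeries k, ∀ t, V t = PowerSeries.X * MvPolynomial.aeval V (G t) := by
  let V : T → PowerSeries k := fun t => PowerSeries.mk fun n => PowerSeries.coeff n (fixSeq G (n + 1) t)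
  have hV : ∀ n t, (PowerSeries.X : PowerSeries k) ^ n ∣ V t - fixSeq G n t := by
    intro n t
    rw [PowerSeries.X_pow_dvd_iff]
    intro m hm
    have h1 := fixSeq_le G (m + 1) n hm t
    rw [PowerSeries.X_pow_dvd_iff] at h1
    have h2 := h1 m (Nat.lt_succ_self m)
    rw [map_sub] at h2
    rw [map_sub, PowerSeries.coeff_mk]
    rw [sub_eq_zero] at h2 ⊢
    exact h2.symm
  refine ⟨V, fun t => ?_⟩
  have key : ∀ n, (PowerSeries.X : PowerSeries k) ^ n ∣ V t - PowerSeries.X * MvPolynomial.aeval V (G t) := by
    intro n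
    have h1 := hV (n + 1) t
    have h2 := fix_cong _ _ n (fun t => hV n t) (G t)
    have h3 : (PowerSeries.X : PowerSeries k) ^ (n + 1) ∣
        PowerSeries.X * (MvPolynomial.aeval V (G t) - MvPolynomial.aeval (fixSeq G n) (G t)) := by
      rw [pow_succ']; exact mul_dvd_mul_left _ h2
    have h4 := dvd_sub h1 h3
    have h5 : V t - fixSeq G (n + 1) t -
        PowerSeries.X * (MvPolynomial.aeval V (G t) - MvPolynomial.aeval (fixSeq G n) (G t))
        = V t - PowerSeries.X * MvPolynomial.aeval V (G t) := by
      rw [fixSeq_succ]; ring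
    rw [h5] at h4
    exact dvd_trans (pow_dvd_pow _ (Nat.le_succ n)) h4
  rw [← sub_eq_zero]
  ext n
  have h := key (n + 1)
  rw [PowerSeries.X_pow_dvd_iff] at h
  rw [h n (Nat.lt_succ_self n)]
  simp

end Pool.Agent.Lib.MP_1e3e9c_ag.RC
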