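import Pool.Agent.Lib.MP_1e3e9c_ag.RC.Tile
import Pool.Agent.Lib.MP_1e3e9c_ag.RC.Deg
import Pool.Agent.Lib.MP_1e3e9c_ag.RC.Fix
import Pool.Agent.Lib.MP_1e3e9c_ag.RC.Spec

/-! # Gen: the line of the special member deforms over the power series ring

JOB Gen (120 lines).  `tile`, `natDegree_aeval_le`, `fix`, `special` are imported.
Let `b m = if f m = α then a m else 0`, `s` the shifts of `tile r c b (fun j => D j α)` (its hypothesis `hord`:
if `f m = α` it is `hord`, else `0 ≤ _`), `F0` the polynomials of `special` (its hypothesis `hs`: from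
`tile` one has `j ≤ m`, so `a m ≤ D j (f m)` by `hord`, and `p + b m ≤ D j α`).
Index type `T = Σ j : Fin c, Fin (D j α + 1)`.  For `t = ⟨j, l⟩ : T` let `δ t : Fin r → k[X]` be the solution that
`tile` gives for the right side `fun j' => if j' = j then X ^ l else 0`.
Universal point: `A = MvPolynomial T k`, `gU m = ∑ t, C (MvPolynomial.X t) * (δ t m).map (algebraMap k A) : A[X]`,
`Φ j = MvPolynomial.aeval (pt gU) (F j) : A[X]`.  `fix` applied to `G t = - (Φ t.1).coeff t.2` gives
`V : T → PowerSeries k` with `V t = X * aeval V (G t)`.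
Let `g m = ∑ t, C (V t) * (δ t m).map (algebraMap k (PowerSeries k))`.  Then
(1) `(Φ j).map (aeval V) = aeval (pt g) (F j)` (the map `A[X] → (PowerSeries k)[X]` is a `k`-algebra hom that maps
 `pt gU` to `pt g`; `Polynomial.mapAlgHom`), so `coeff (aeval (pt g) (F j)) l = aeval V ((Φ j).coeff l)`;
(2) `natDegree (g m) ≤ b m`, so `natDegree (aeval (pt g) (F j)) ≤ D j α` by `natDegree_aeval_le`
 (`fc = fac α f`, `w = wt a`; `natDegree (pt g i) ≤ if fac α f i = α then wt a i else 0`: for `z b` it is
 `natDegree 1 = 0`, for `x` it is `1 ≤ 1`, for `y m` it is (2));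
(3) `aeval (pt g) (F0 j) = ∑ m, (s m j).elim 0 (X^p * g m) = ∑ t, C (V t) * (if t.1 = j then X ^ t.2 else 0)`,
 so its coefficient at `l ≤ D j α` is `V ⟨j, l⟩`, and it is `0` for `l > D j α`.
Compare the coefficients: for `l ≤ D j α`: `V ⟨j,l⟩ + X * aeval V ((Φ j).coeff l) = 0` is the fixed point
equation; for `l > D j α` both terms are zero. -/

set_option autoImplicit false

namespace Pool.Agent.Lib.MP_1e3e9c_ag.RC

open Polynomial

private theorem gen_elim {k R T : Type*} [Field k] [CommRing R] [Fintype T] (φ : k →+* R)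
    (o : Option ℕ) (V : T → R) (δ : T → k[X]) :
    o.elim 0 (fun p => X ^ p * ∑ t, C (V t) * (δ t).map φ) =
      ∑ t, C (V t) * (o.elim 0 (fun p => X ^ p * δ t)).map φ := by
  cases o with
  | none => simp
  | some p =>
    simp only [Option.elim_some]
    rw [Finset.mul_sum]
    refine Finset.sum_congr rfl fun t _ => ?_
    rw [Polynomial.map_mul, Polynomial.map_pow, Polynomial.map_X]
    ring

private theorem gen_coeff {R : Type*} [CommRing R] {c : ℕ} (d : Fin c → ℕ)
    (V : (Σ j : Fin c, Fin (d j + 1)) → R) (j : Fin c) (l : ℕ) :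
    (∑ t, C (V t) * (if j = t.1 then X ^ (t.2 : ℕ) else 0)).coeff l =
      if h : l < d j + 1 then V ⟨j, ⟨l, h⟩⟩ else 0 := by
  classical
  rw [Polynomial.finsetSum_coeff]
  have h1 : ∀ t : (Σ j : Fin c, Fin (d j + 1)),
      (C (V t) * (if j = t.1 then (X : R[X]) ^ (t.2 : ℕ) else 0)).coeff l =
      if j = t.1 ∧ l = (t.2 : ℕ) then V t else 0 := by
    intro t
    rw [Polynomial.coeff_C_mul]
    by_cases h2 : j = t.1
    · rw [if_pos h2, Polynomial.coeff_X_pow]
      by_cases h3 : l = (t.2 : ℕ)
      · rw [if_pos h3, if_pos ⟨h2, h3⟩, mul_one]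
      · rw [if_neg h3, if_neg (fun h => h3 h.2), mul_zero]
    · rw [if_neg h2, if_neg (fun h => h2 h.1), Polynomial.coeff_zero, mul_zero]
  rw [Finset.sum_congr rfl fun t _ => h1 t]
  split_ifs with h
  · rw [Finset.sum_eq_single (⟨j, ⟨l, h⟩⟩ : Σ j : Fin c, Fin (d j + 1))]
    · rw [if_pos ⟨rfl, rfl⟩]
    · rintro ⟨j', l'⟩ _ hne
      refine if_neg fun h2 => hne ?_
      obtain ⟨h3, h4⟩ := h2
      dsimp only at h3 h4
      subst h3
      congr 1
      exact Fin.ext h4.symm
    · intro h2
      exact absurd (Finset.mem_univ _) h2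
  · refine Finset.sum_eq_zero fun t _ => if_neg fun h2 => h ?_
    rw [h2.2, h2.1]
    exact t.2.2

/-- Change of the coefficients at a point. -/
private theorem gen_map {k R B T : Type*} [Field k] [CommRing R] [Algebra k R] [Fintype T]
    {r : ℕ} (V : T → R) (δ : T → Fin r → k[X]) :
    (fun i => (Polynomial.mapAlgHom (MvPolynomial.aeval V : MvPolynomial T k →ₐ[k] R)
      (pt (B := B) (fun m => ∑ t, C (MvPolynomial.X t) *
        (δ t m).map (algebraMap k (MvPolynomial T k))) i))) =
      pt (B := B) fun m => ∑ t, C (V t) * (δ t m).map (algebraMap k R) := by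
  funext i
  rcases i with b | _ | m
  · exact map_one _
  · change Polynomial.map _ X = X
    exact Polynomial.map_X _
  · change (Polynomial.mapAlgHom (MvPolynomial.aeval V : MvPolynomial T k →ₐ[k] R))
      (∑ t, C (MvPolynomial.X t) * (δ t m).map (algebraMap k (MvPolynomial T k))) =
      ∑ t, C (V t) * (δ t m).map (algebraMap k R)
    rw [map_sum]
    refine Finset.sum_congr rfl fun t _ => ?_
    rw [map_mul, Polynomial.coe_mapAlgHom, Polynomial.map_C, Polynomial.map_map]
    have h1 : ((MvPolynomial.aeval V : MvPolynomial T k →ₐ[k] R) : MvPolynomial T k →+* R).comp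
        (algebraMap k (MvPolynomial T k)) = algebraMap k R := AlgHom.comp_algebraMap _
    rw [h1]
    congr 2
    exact MvPolynomial.aeval_X V t

private theorem gen_coeff_aeval {k R B T : Type*} [Field k] [CommRing R] [Algebra k R] [Fintype T]
    {r : ℕ} (V : T → R) (δ : T → Fin r → k[X]) (F : MvPolynomial (Coord B r) k) (l : ℕ) :
    (MvPolynomial.aeval (pt (B := B) fun m => ∑ t, C (V t) * (δ t m).map (algebraMap k R))
      F).coeff l =
    MvPolynomial.aeval V ((MvPolynomial.aeval (pt (B := B) (fun m => ∑ t, C (MvPolynomial.X t) *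
        (δ t m).map (algebraMap k (MvPolynomial T k)))) F).coeff l) := by
  rw [← gen_map, ← MvPolynomial.comp_aeval_apply, Polynomial.coe_mapAlgHom, Polynomial.coeff_map]
  rfl

private theorem gen_deg {k R B T : Type*} [Field k] [CommRing R] [Algebra k R] [Nontrivial R]
    [Fintype T] [Fintype B] [DecidableEq B] {r : ℕ} (α : B) (f : Fin r → B) (a : Fin r → ℕ)
    (D : B → ℕ) (F : MvPolynomial (Coord B r) k)
    (hF : F.IsWeightedHomogeneous (mdeg (fac α f) (wt a)) D) (V : T → R) (δ : T → Fin r → k[X])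
    (hδ : ∀ t m, (δ t m).natDegree ≤ if f m = α then a m else 0) :
    (MvPolynomial.aeval (pt (B := B) fun m => ∑ t, C (V t) * (δ t m).map (algebraMap k R))
      F).natDegree ≤ D α := by
  refine natDegree_aeval_le (fac α f) (wt a) α F D hF _ fun i => ?_
  rcases i with b | _ | m
  · change (1 : R[X]).natDegree ≤ _
    rw [natDegree_one]
    exact Nat.zero_le _
  · change (X : R[X]).natDegree ≤ if α = α then 1 else 0
    rw [if_pos rfl]
    exact natDegree_X_le
  · change (∑ t, C (V t) * (δ t m).map (algebraMap k R)).natDegree ≤ if f m = α then a m else 0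
    refine natDegree_sum_le_of_forall_le _ _ fun t _ => ?_
    exact (natDegree_C_mul_le _ _).trans (natDegree_map_le.trans (hδ t m))

theorem generic {k B : Type*} [Field k] [Fintype B] [DecidableEq B] (r c : ℕ) (α : B)
    (f : Fin r → B) (a : Fin r → ℕ) (D : Fin c → B → ℕ) (F : Fin c → MvPolynomial (Coord B r) k)
    (hF : ∀ j, (F j).IsWeightedHomogeneous (mdeg (fac α f) (wt a)) (D j))
    (hord : ∀ (m : Fin r) (j : Fin c), (j : ℕ) ≤ m → a m ≤ D j (f m))
    (hcount : ∑ j, (D j α + 1) ≤ ∑ m, ((if f m = α then a m else 0) + 1)) :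
    ∃ F0 : Fin c → MvPolynomial (Coord B r) k,
      (∀ j, (F0 j).IsWeightedHomogeneous (mdeg (fac α f) (wt a)) (D j)) ∧
      ∃ g : Fin r → (PowerSeries k)[X], ∀ j,
        MvPolynomial.aeval (pt g) (F0 j) + C PowerSeries.X * MvPolynomial.aeval (pt g) (F j) = 0 := by
  classical
  obtain ⟨s, hs1, hs2⟩ := tile (k := k) r c (fun m => if f m = α then a m else 0)
    (fun j => D j α) (by
      intro m j hjm
      split_ifs with h
      · have h1 := hord m j hjm
        rw [h] at h1
        exact h1
      · exact Nat.zero_le _) hcount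
  obtain ⟨F0, hF0h, hF0⟩ := special (k := k) r c α f a D s (fun m j p hp =>
    ⟨hord m j (hs1 m j p hp).1, (hs1 m j p hp).2⟩)
  refine ⟨F0, hF0h, ?_⟩
  -- the solutions of the linear problem
  have hδ : ∀ t : (Σ j : Fin c, Fin (D j α + 1)), ∃ δ : Fin r → k[X],
      (∀ m, (δ m).natDegree ≤ if f m = α then a m else 0) ∧
      ∀ j, ∑ m, (s m j).elim 0 (fun p => X ^ p * δ m) =
        if j = t.1 then X ^ (t.2 : ℕ) else 0 := by
    intro t
    refine hs2 (fun j => if j = t.1 then X ^ (t.2 : ℕ) else 0) fun j => ?_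
    split_ifs with h
    · rw [natDegree_X_pow, h]
      have := t.2.2
      omega
    · rw [natDegree_zero]
      exact Nat.zero_le _
  choose δ hδ1 hδ2 using hδ
  obtain ⟨V, hV⟩ := fix (k := k) (T := Σ j : Fin c, Fin (D j α + 1))
    (fun t => -(MvPolynomial.aeval (pt (B := B) (fun m => ∑ t, C (MvPolynomial.X t) *
        (δ t m).map (algebraMap k (MvPolynomial (Σ j : Fin c, Fin (D j α + 1)) k))))
          (F t.1)).coeff (t.2 : ℕ))
  refine ⟨fun m => ∑ t, C (V t) * (δ t m).map (algebraMap k (PowerSeries k)), fun j => ?_⟩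
  have e3 := gen_deg (R := PowerSeries k) α f a (D j) (F j) (hF j) V δ hδ1
  have e4 : MvPolynomial.aeval (pt (B := B)
      (fun m => ∑ t, C (V t) * (δ t m).map (algebraMap k (PowerSeries k)))) (F0 j) =
      ∑ t, C (V t) * (if j = t.1 then X ^ (t.2 : ℕ) else 0) := by
    rw [hF0]
    rw [Finset.sum_congr rfl fun m _ => gen_elim (algebraMap k (PowerSeries k)) (s m j) V
      (fun t => δ t m), Finset.sum_comm]
    refine Finset.sum_congr rfl fun t _ => ?_
    rw [← Finset.mul_sum, ← Polynomial.map_sum, hδ2 t j]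
    congr 1
    split_ifs
    · rw [Polynomial.map_pow, Polynomial.map_X]
    · exact Polynomial.map_zero _
  ext1 l
  rw [Polynomial.coeff_add, Polynomial.coeff_C_mul, Polynomial.coeff_zero, e4,
    gen_coeff (fun j => D j α)]
  split_ifs with h
  · have e5 := gen_coeff_aeval (R := PowerSeries k) V δ (F j) l
    rw [e5, hV ⟨j, ⟨l, h⟩⟩, map_neg]
    ring
  · rw [Polynomial.coeff_eq_zero_of_natDegree_lt (by omega), mul_zero, add_zero]

end Pool.Agent.Lib.MP_1e3e9c_ag.RC
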