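import Pool.Agent.Lib.MP_1e3e9c_ag.RC.Scales
import Pool.Agent.Lib.MP_1e3e9c_ag.RC.Deg

/-! # Red: reduction of the generic curve modulo the maximal ideal of the valuation ring

JOB Red (150 lines).  `scales`, `coeff_mem_of_pow`, `aeval_scale` are imported (they may still be `sorry`).
`|x| = V.valuation x`, `κ = IsLocalRing.ResidueField V`.
(B) Let `M = ∏ i, w i > 0`, `φ : L[X] → L[X]` the substitution `p ↦ p.comp (C ρ * X + C z)` (an `L`-algebra hom).
 Apply `scales` to the family `P i ^ (M / w i)` and the indices `i0`, `i1` (`P i0 ^ _ = 1`, `P i1 ^ _ = X ^ M`).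
 It gives `z`, `ρ`, `μ`, and `i`, `j`, `l`, `l'`.  Write `h i = φ (P i ^ (M / w i)) = φ (P i) ^ (M / w i)`.
(D) Choose `lam b` with `lam b ^ M = μ b` (`L` algebraically closed, `IsAlgClosed.exists_pow_nat_eq`), `≠ 0`; put
 `Q i = C ((lam (fc i))⁻¹) ^ w i * φ (P i)`.  Then `Q i ^ (M / w i) = C (μ (fc i))⁻¹ * h i` has coefficients in `V`
 (`w i ∣ M`), so by `coeff_mem_of_pow` `Q i` has coefficients in `V`: `Q i = map (q i)`, `q i : V[X]`.
(E) `aeval Q (F j) + C u * aeval Q (F0 j) = 0` by `aeval_scale` (with `R = L[X]`, both have the factor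
 `∏ b, C ((lam b)⁻¹) ^ D j b`) and `φ (aeval P (F j)) = aeval (φ ∘ P) (F j)`.  `V` is a `k`-algebra by `hk`
 (`RingHom.toAlgebra`, with the scalar tower `k V L`); `V[X] → L[X]` is injective, so
 `aeval q (F j) + C u * aeval q (F0 j) = 0` in `V[X]`; map it to `κ[X]` (`κ` is a `k`-algebra through `V`), where
 `u ↦ 0` (`u` is a nonunit of the local ring `V`): `aeval q̄ (F j) = 0`, `q̄ i = map (residue) (q i)`.
(F) `q̄ i ^ (M / w i)` is the reduction of `C (μ (fc i))⁻¹ * h i`.  For every `b` one of them with `fc i = b` has a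
 coefficient that is a unit of `V`, so it is not zero: `ne_zero`.  The `i`, `j` of `scales` (`fc i = fc j`): the
 minor divided by `μ (fc i) ^ 2` is a unit of `V`, so the corresponding minor of the coefficients of
 `q̄ i ^ (M / w i)` and `q̄ j ^ (M / w j)` is not zero; so `i ≠ j`, and these two polynomials are linearly
 independent over `κ` and not zero.  As `w i * w j ∣ M` (`i ≠ j`), `q̄ i ^ w j = C c * q̄ j ^ w i` would give, raised to
 the power `M / (w i * w j)`, a linear relation between them: this proves `nonconst`. -/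

set_option autoImplicit false

namespace Pool.Agent.Lib.MP_1e3e9c_ag.RC

open Polynomial

private theorem red_lift {L : Type*} [Field L] (V : ValuationSubring L) (Q : L[X])
    (h : ∀ l, Q.coeff l ∈ V) : ∃ q : V[X], q.map (algebraMap V L) = Q := by
  have h1 : Q ∈ lifts (algebraMap V L) := by
    rw [lifts_iff_coeff_lifts]
    intro n
    exact ⟨⟨Q.coeff n, h n⟩, rfl⟩
  exact (mem_lifts _).1 h1

private theorem red_unit {L : Type*} [Field L] (V : ValuationSubring L) (a : V)
    (h : V.valuation (a : L) = 1) : IsLocalRing.residue V a ≠ 0 := by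
  rw [IsLocalRing.residue_ne_zero_iff_isUnit, V.valuation_eq_one_iff]
  exact h

theorem reduce {k : Type*} {L : Type*} {ι B J : Type*} [Field k] [Field L] [IsAlgClosed L]
    [Algebra k L] [Fintype ι] [Fintype B] [DecidableEq B] (V : ValuationSubring L)
    (hk : ∀ c : k, algebraMap k L c ∈ V) (u : L) (hu : u ∈ V.nonunits)
    (fc : ι → B) (w : ι → ℕ) (hw : ∀ i, 0 < w i) (F F0 : J → MvPolynomial ι k) (D : J → B → ℕ)
    (hF : ∀ j, (F j).IsWeightedHomogeneous (mdeg fc w) (D j))
    (hF0 : ∀ j, (F0 j).IsWeightedHomogeneous (mdeg fc w) (D j))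
    (P : ι → L[X])
    (hP : ∀ j, MvPolynomial.aeval P (F j) + C u * MvPolynomial.aeval P (F0 j) = 0)
    (hne : ∀ b, ∃ i, fc i = b ∧ P i ≠ 0)
    (i0 i1 : ι) (h01 : fc i0 = fc i1) (hP0 : P i0 = 1) (hP1 : P i1 = X) :
    ∃ (_ : Algebra k (IsLocalRing.ResidueField V)) (Q : ι → (IsLocalRing.ResidueField V)[X]),
      (∀ j, MvPolynomial.aeval Q (F j) = 0) ∧ IsCurve fc w Q := by
  classical
  -- the exponents
  obtain ⟨M, hM⟩ : ∃ M, M = ∏ i, w i := ⟨_, rfl⟩
  have hM0 : 0 < M := by
    rw [hM]
    exact Finset.prod_pos fun i _ => hw i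
  have hwM : ∀ i, w i ∣ M := by
    intro i
    rw [hM]
    exact Finset.dvd_prod_of_mem w (Finset.mem_univ i)
  have he : ∀ i, w i * (M / w i) = M := fun i => Nat.mul_div_cancel' (hwM i)
  have he0 : ∀ i, 0 < M / w i := fun i => Nat.div_pos (Nat.le_of_dvd hM0 (hwM i)) (hw i)
  -- the discs
  obtain ⟨z, ρ, hρ, μ, hμ, hle, hex, i, j, l, l', hij, hmin⟩ := scales V fc
    (fun i => P i ^ (M / w i)) (fun b => by
      obtain ⟨i, hi, hPi⟩ := hne b
      exact ⟨i, hi, pow_ne_zero _ hPi⟩) i0 i1 h01
    (by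
      simp only [hP0, one_pow]
      exact one_ne_zero)
    (by
      intro c hc
      simp only [hP0, hP1, one_pow, mul_one] at hc
      have h2 := congrArg natDegree hc
      rw [natDegree_X_pow, natDegree_C] at h2
      exact absurd h2 (he0 i1).ne')
  have hlam0 : ∀ b, ∃ t : L, t ^ M = μ b := fun b => IsAlgClosed.exists_pow_nat_eq (μ b) hM0
  choose lam hlam using hlam0
  let φ : L[X] →ₐ[L] L[X] := Polynomial.aeval (C ρ * X + C z)
  have hφ : ∀ p, φ p = p.comp (C ρ * X + C z) := fun p => rfl
  obtain ⟨Q, hQ⟩ : ∃ Q : ι → L[X], Q = fun i => C ((lam (fc i))⁻¹) ^ w i * φ (P i) := ⟨_, rfl⟩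
  have hQe : ∀ i l, (Q i ^ (M / w i)).coeff l =
      (μ (fc i))⁻¹ * ((P i ^ (M / w i)).comp (C ρ * X + C z)).coeff l := by
    intro i l
    have h2 : Q i ^ (M / w i) = C ((μ (fc i))⁻¹) * (P i ^ (M / w i)).comp (C ρ * X + C z) := by
      rw [← hφ, map_pow, hQ]
      simp only []
      rw [mul_pow, ← pow_mul, he i, ← C_pow, inv_pow, hlam]
    rw [h2, coeff_C_mul]
  have hμv : ∀ b, V.valuation (μ b) ≠ 0 := fun b => (Valuation.ne_zero_iff _).2 (hμ b)
  have hQV : ∀ i l, (Q i).coeff l ∈ V := by
    intro i l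
    refine coeff_mem_of_pow V (Q i) (M / w i) (he0 i) (fun l => ?_) l
    rw [← V.valuation_le_one_iff, hQe, map_mul, map_inv₀]
    have h2 := hle i l
    calc (V.valuation (μ (fc i)))⁻¹ *
          V.valuation (((P i ^ (M / w i)).comp (C ρ * X + C z)).coeff l)
        ≤ (V.valuation (μ (fc i)))⁻¹ * V.valuation (μ (fc i)) := mul_le_mul_right h2 _
      _ = 1 := inv_mul_cancel₀ (hμv _)
  have hq0 : ∀ i, ∃ q : V[X], q.map (algebraMap V L) = Q i := fun i => red_lift V (Q i) (hQV i)
  choose q hq using hq0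
  -- the algebra structures
  let ψ : k →+* V := (algebraMap k L).codRestrict V hk
  have hψ : (algebraMap V L).comp ψ = algebraMap k L := by
    ext x
    rfl
  -- the equation for Q
  have hQeq : ∀ j, MvPolynomial.aeval Q (F j) + C u * MvPolynomial.aeval Q (F0 j) = 0 := by
    intro j
    have h2 : ∀ G : MvPolynomial ι k, G.IsWeightedHomogeneous (mdeg fc w) (D j) →
        MvPolynomial.aeval Q G = (∏ b, C ((lam b)⁻¹) ^ D j b) * φ (MvPolynomial.aeval P G) := by
      intro G hG
      have h3 := aeval_scale fc w G (D j) hG (fun i => φ (P i)) (fun b => C ((lam b)⁻¹))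
      have h4 : φ (MvPolynomial.aeval P G) = MvPolynomial.aeval (fun i => φ (P i)) G :=
        MvPolynomial.comp_aeval_apply (φ := φ.restrictScalars k) (f := P) G
      rw [h4, hQ]
      exact h3
    have h5 := congrArg φ (hP j)
    rw [map_add, map_mul, map_zero] at h5
    have h6 : φ (C u) = C u := by
      rw [hφ, C_comp]
    rw [h6] at h5
    rw [h2 _ (hF j), h2 _ (hF0 j)]
    linear_combination (∏ b, C ((lam b)⁻¹) ^ D j b) * h5
  have hinj : Function.Injective (Polynomial.map (algebraMap V L)) :=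
    Polynomial.map_injective _ Subtype.val_injective
  have hu1 : u ∈ V := V.nonunits_subset hu
  have hu2 : IsLocalRing.residue V ⟨u, hu1⟩ = 0 := by
    obtain ⟨h3, h4⟩ := V.mem_nonunits_iff_exists_mem_maximalIdeal.1 hu
    exact (IsLocalRing.residue_eq_zero_iff _).2 h4
  have hmapE : ∀ G : MvPolynomial ι k, (Polynomial.map (algebraMap V L))
      (MvPolynomial.eval₂ ((C : V →+* V[X]).comp ψ) q G) = MvPolynomial.aeval Q G := by
    intro G
    have h3 := MvPolynomial.eval₂_comp_left (Polynomial.mapRingHom (algebraMap V L))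
      ((C : V →+* V[X]).comp ψ) q G
    rw [coe_mapRingHom] at h3
    rw [h3, MvPolynomial.aeval_def]
    have h4 : (Polynomial.mapRingHom (algebraMap V L)).comp ((C : V →+* V[X]).comp ψ) =
        algebraMap k L[X] := by
      ext1 x
      rw [RingHom.comp_apply, RingHom.comp_apply, coe_mapRingHom, map_C, Polynomial.algebraMap_apply]
      rfl
    have h5 : (Polynomial.map (algebraMap V L)) ∘ q = Q := by
      funext i
      exact hq i
    rw [h4, h5]
  have hVeq : ∀ j, MvPolynomial.eval₂ ((C : V →+* V[X]).comp ψ) q (F j) +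
      C ⟨u, hu1⟩ * MvPolynomial.eval₂ ((C : V →+* V[X]).comp ψ) q (F0 j) = 0 := by
    intro j
    apply hinj
    rw [Polynomial.map_add, Polynomial.map_mul, Polynomial.map_zero, hmapE, hmapE, map_C]
    exact hQeq j
  have hκeq : ∀ j, MvPolynomial.eval₂ ((C : IsLocalRing.ResidueField V →+*
      (IsLocalRing.ResidueField V)[X]).comp ((IsLocalRing.residue V).comp ψ))
      (fun i => (q i).map (IsLocalRing.residue V)) (F j) = 0 := by
    intro j
    have h3 := MvPolynomial.eval₂_comp_left (Polynomial.mapRingHom (IsLocalRing.residue V))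
      ((C : V →+* V[X]).comp ψ) q (F j)
    have h4 : (Polynomial.mapRingHom (IsLocalRing.residue V)).comp ((C : V →+* V[X]).comp ψ) =
        (C : IsLocalRing.ResidueField V →+* (IsLocalRing.ResidueField V)[X]).comp
          ((IsLocalRing.residue V).comp ψ) := by
      ext1 x
      rw [RingHom.comp_apply, RingHom.comp_apply, coe_mapRingHom, map_C]
      rfl
    rw [h4] at h3
    have h5 := congrArg (Polynomial.mapRingHom (IsLocalRing.residue V)) (hVeq j)
    rw [map_add, map_mul, map_zero, coe_mapRingHom, map_C, hu2, C_0, zero_mul, add_zero] at h5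
    rw [coe_mapRingHom] at h3
    rw [h5] at h3
    exact h3.symm
  -- coefficients of the powers
  have hqcoef : ∀ i l, algebraMap V L ((q i ^ (M / w i)).coeff l) =
      (μ (fc i))⁻¹ * ((P i ^ (M / w i)).comp (C ρ * X + C z)).coeff l := by
    intro i l
    rw [← hQe, ← hq i, ← Polynomial.map_pow, coeff_map]
  have hbar : ∀ i l, ((q i).map (IsLocalRing.residue V) ^ (M / w i)).coeff l =
      IsLocalRing.residue V ((q i ^ (M / w i)).coeff l) := by
    intro i l
    rw [← Polynomial.map_pow, coeff_map]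
  have hmin' : ((q i).map (IsLocalRing.residue V) ^ (M / w i)).coeff l *
      ((q j).map (IsLocalRing.residue V) ^ (M / w j)).coeff l' -
      ((q i).map (IsLocalRing.residue V) ^ (M / w i)).coeff l' *
      ((q j).map (IsLocalRing.residue V) ^ (M / w j)).coeff l ≠ 0 := by
    rw [hbar, hbar, hbar, hbar, ← map_mul, ← map_mul, ← map_sub]
    apply red_unit
    have h3 : (((q i ^ (M / w i)).coeff l * (q j ^ (M / w j)).coeff l' -
        (q i ^ (M / w i)).coeff l' * (q j ^ (M / w j)).coeff l : V) : L) =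
        (μ (fc i))⁻¹ * (μ (fc i))⁻¹ *
        (((P i ^ (M / w i)).comp (C ρ * X + C z)).coeff l *
          ((P j ^ (M / w j)).comp (C ρ * X + C z)).coeff l' -
        ((P i ^ (M / w i)).comp (C ρ * X + C z)).coeff l' *
          ((P j ^ (M / w j)).comp (C ρ * X + C z)).coeff l) := by
      have h4 := hqcoef i l
      have h5 := hqcoef i l'
      have h6 := hqcoef j l
      have h7 := hqcoef j l'
      rw [← hij] at h6 h7
      have h8 : (((q i ^ (M / w i)).coeff l * (q j ^ (M / w j)).coeff l' -
        (q i ^ (M / w i)).coeff l' * (q j ^ (M / w j)).coeff l : V) : L) =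
        algebraMap V L ((q i ^ (M / w i)).coeff l) * algebraMap V L ((q j ^ (M / w j)).coeff l') -
        algebraMap V L ((q i ^ (M / w i)).coeff l') *
          algebraMap V L ((q j ^ (M / w j)).coeff l) := rfl
      rw [h8, h4, h5, h6, h7]
      ring
    rw [h3, map_mul, map_mul, map_inv₀]
    rw [hmin, sq]
    have h9 := hμv (fc i)
    rw [mul_assoc, ← mul_assoc (V.valuation (μ (fc i)))⁻¹ (V.valuation (μ (fc i))),
      inv_mul_cancel₀ h9, one_mul, inv_mul_cancel₀ h9]
  let algκ : Algebra k (IsLocalRing.ResidueField V) := ((IsLocalRing.residue V).comp ψ).toAlgebra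
  refine ⟨algκ, fun i => (q i).map (IsLocalRing.residue V), ?_, ?_, ?_⟩
  · intro j
    rw [MvPolynomial.aeval_def]
    exact hκeq j
  · intro b
    obtain ⟨i, l, hib, hval⟩ := hex b
    refine ⟨i, hib, ?_⟩
    intro h0
    have h3 := hbar i l
    rw [h0, zero_pow (he0 i).ne', coeff_zero] at h3
    refine red_unit V _ ?_ h3.symm
    have h4 : (((q i ^ (M / w i)).coeff l : V) : L) = _ := hqcoef i l
    rw [h4, map_mul, map_inv₀, hib, hval]
    exact inv_mul_cancel₀ (hμv b)
  · refine ⟨i, j, hij, ?_, ?_⟩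
    · intro h0
      apply hmin'
      rw [h0, zero_pow (he0 j).ne']
      simp
    · intro c hc
      apply hmin'
      by_cases hne : i = j
      · subst hne
        ring
      · have hdvd : w i * w j ∣ M := by
          rw [hM, ← Finset.prod_pair hne]
          exact Finset.prod_dvd_prod_of_subset _ _ _ (Finset.subset_univ _)
        obtain ⟨N, hN⟩ := hdvd
        have hei : M / w i = w j * N := by
          rw [hN, mul_assoc, Nat.mul_div_cancel_left _ (hw i)]
        have hej : M / w j = w i * N := by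
          rw [hN, mul_comm (w i), mul_assoc, Nat.mul_div_cancel_left _ (hw j)]
        have h3 : (q i).map (IsLocalRing.residue V) ^ (M / w i) =
            C (c ^ N) * (q j).map (IsLocalRing.residue V) ^ (M / w j) := by
          rw [hei, hej, pow_mul, hc, mul_pow, ← C_pow, ← pow_mul]
        rw [h3, coeff_C_mul, coeff_C_mul]
        ring

end Pool.Agent.Lib.MP_1e3e9c_ag.RC
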