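import Pool.Agent.Lib.MP_1e3e9c_ag.RC.Gen
import Pool.Agent.Lib.MP_1e3e9c_ag.RC.Red
import Pool.Agent.Lib.MP_1e3e9c_ag.RC.Desc
import Pool.Agent.Lib.MP_1e3e9c_ag.RC.Val

/-! # Rational curves on complete intersections in products of weighted projective spaces -/

set_option autoImplicit false

namespace Pool.Agent.Lib.MP_1e3e9c_ag.RC

open Polynomial

/-- evaluation commutes with a change of the coefficient ring -/
theorem map_aeval {k R S ι : Type*} [Field k] [CommRing R] [CommRing S] [Algebra k R] [Algebra k S]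
    (φ : R →ₐ[k] S) (P : ι → R[X]) (F : MvPolynomial ι k) :
    (MvPolynomial.aeval P F).map (φ : R →+* S)
      = MvPolynomial.aeval (fun i => (P i).map (φ : R →+* S)) F := by
  have h : (Polynomial.mapAlgHom φ).comp (MvPolynomial.aeval P)
      = MvPolynomial.aeval (fun i => (P i).map (φ : R →+* S)) := by
    apply MvPolynomial.algHom_ext
    intro i
    simp
  have h2 := congrArg (fun ψ : MvPolynomial ι k →ₐ[k] S[X] => ψ F) h
  simpa using h2

theorem main {k B : Type*} [Field k] [IsAlgClosed k] [Fintype B] [DecidableEq B] (r c : ℕ) (α : B)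
    (f : Fin r → B) (a : Fin r → ℕ) (ha : ∀ m, 0 < a m) (D : Fin c → B → ℕ)
    (F : Fin c → MvPolynomial (Coord B r) k)
    (hF : ∀ j, (F j).IsWeightedHomogeneous (mdeg (fac α f) (wt a)) (D j))
    (hord : ∀ (m : Fin r) (j : Fin c), (j : ℕ) ≤ m → a m ≤ D j (f m))
    (hcount : ∑ j, (D j α + 1) ≤ ∑ m, ((if f m = α then a m else 0) + 1)) :
    ∃ Q : Coord B r → k[X], (∀ j, MvPolynomial.aeval Q (F j) = 0) ∧
      IsCurve (fac α f) (wt a) Q := by
  classical
  obtain ⟨F0, hF0, g, hg⟩ := generic r c α f a D F hF hord hcount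
  let K0 := FractionRing (PowerSeries k)
  let L := AlgebraicClosure K0
  let φ : PowerSeries k →ₐ[k] L :=
    (IsScalarTower.toAlgHom k K0 L).comp (IsScalarTower.toAlgHom k (PowerSeries k) K0)
  have hφ : Function.Injective φ :=
    (FaithfulSMul.algebraMap_injective K0 L).comp (IsFractionRing.injective (PowerSeries k) K0)
  let τ : L := φ PowerSeries.X
  have hτ : τ ≠ 0 := by
    intro h
    have h1 : φ PowerSeries.X = φ 0 := by rw [map_zero]; exact h
    exact PowerSeries.X_ne_zero (hφ h1)
  have hu : Transcendental k τ⁻¹ := by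
    intro h
    have h1 : IsAlgebraic k τ := by
      have h2 := h.inv
      rwa [inv_inv] at h2
    have h3 : IsAlgebraic k (PowerSeries.X : PowerSeries k) :=
      (isAlgebraic_algHom_iff φ hφ).1 h1
    obtain ⟨p, hp0, hp⟩ := h3
    apply hp0
    have h4 : (p : PowerSeries k) = Polynomial.aeval (PowerSeries.X : PowerSeries k) p := by
      have h5 : (Polynomial.coeToPowerSeries.algHom k : k[X] →ₐ[k] PowerSeries k)
          = Polynomial.aeval (PowerSeries.X : PowerSeries k) := by
        apply Polynomial.algHom_ext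
        simp [Polynomial.coeToPowerSeries.algHom_apply]
      have h6 := congrArg (fun ψ : k[X] →ₐ[k] PowerSeries k => ψ p) h5
      simpa [Polynomial.coeToPowerSeries.algHom_apply] using h6
    rw [hp] at h4
    exact_mod_cast h4
  obtain ⟨V, hk, hV⟩ := exists_val (k := k) (L := L) τ⁻¹ hu
  let P : Coord B r → L[X] := fun i => (pt g i).map (φ : PowerSeries k →+* L)
  have hP : ∀ j, MvPolynomial.aeval P (F j) + C τ⁻¹ * MvPolynomial.aeval P (F0 j) = 0 := by
    intro j
    have h1 := congrArg (Polynomial.map (φ : PowerSeries k →+* L)) (hg j)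
    rw [Polynomial.map_add, Polynomial.map_mul, Polynomial.map_zero, map_aeval, map_aeval,
      Polynomial.map_C] at h1
    have h2 : C τ⁻¹ * C τ = (1 : L[X]) := by
      rw [← C_mul, inv_mul_cancel₀ hτ, C_1]
    calc MvPolynomial.aeval P (F j) + C τ⁻¹ * MvPolynomial.aeval P (F0 j)
        = C τ⁻¹ * (MvPolynomial.aeval P (F0 j) + C τ * MvPolynomial.aeval P (F j)) := by
          rw [mul_add, ← mul_assoc, h2, one_mul, add_comm]
      _ = 0 := by
          have h3 : MvPolynomial.aeval P (F0 j) + C τ * MvPolynomial.aeval P (F j) = 0 := h1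
          rw [h3, mul_zero]
  have hz : ∀ b, P (Sum.inl b) = 1 := fun b => by simp [P, pt]
  have hx : P (Sum.inr none) = X := by simp [P, pt]
  obtain ⟨_, Q, hQ, hQC⟩ := reduce V hk τ⁻¹ hV (fac α f) (wt a)
    (by rintro (b | _ | m) <;> simp [wt, ha]) F F0 D hF hF0 P hP
    (fun b => ⟨Sum.inl b, rfl, by rw [hz]; exact one_ne_zero⟩)
    (Sum.inl α) (Sum.inr none) rfl (hz α) hx
  exact descend (fac α f) (wt a) F Q hQ hQC

end Pool.Agent.Lib.MP_1e3e9c_ag.RC
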