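import Mathlib
import Pool.Agent.Lib.MP_214270_ag.Tsen

/-! # QS: quasi-smoothness implies the order condition

JOB QS (100 lines).  `k` algebraically closed; a common zero lemma: `m` polynomials without constant
coefficient in `n > m` variables have a common zero `≠ 0` (Krull's height theorem): it is
`Pool.Agent.MP214270.exists_common_zero` in `Pool/Agent/Lib/MP_214270_ag/Tsen.lean` (read it; import that file, or
copy the proof into this file, 70 lines).
Suppose `a m > d j` for some `j ≤ m`.  `a` is antitone, so the variables `y 0, ..., y m` have weights `≥ a m > d j`;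
`d` is antitone, so `F j, F (j+1), ..., F (c-1)` have degrees `≤ d j`: every monomial of these is
a monomial in the other variables only (`x i` and `y i`, `i > m`).  The `j` polynomials `F 0, ..., F (j-1)` restricted
to the linear space where only `y 0, ..., y m` may be nonzero (`m + 1 > j` variables) have no constant
coefficient (their degrees are positive), so they have a common zero `p ≠ 0` in this space.  `F j, ...` vanish
at `p` as well: every monomial has positive degree, so it contains a variable that vanishes at `p`.  So `p` is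
a nonzero common zero of all `F`.  The row `∂ F j / ∂ x i (p)` of the Jacobian matrix is zero: a monomial of `F j` is a
product of at least two (`hlin`: no linear monomials; degree positive) variables that vanish at `p` (with
multiplicity), so each of its partial derivatives vanishes at `p`.  This contradicts the linear independence. -/

set_option autoImplicit false

namespace Pool.Agent.Lib.MP_1e3e9c_ag.RC

open MvPolynomial

theorem QS_eval_monomial {k σ : Type*} [Field k] (p : σ → k) (t : σ →₀ ℕ) (c : k) (u : σ) (hu : t u ≠ 0)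
    (hp : p u = 0) : eval p (monomial t c) = 0 := by
  rw [eval_monomial, Finsupp.prod, Finset.prod_eq_zero (Finsupp.mem_support_iff.2 hu), mul_zero]
  rw [hp, zero_pow hu]

theorem QS_comp {k σ τ : Type*} [Field k] (q : τ → k) (g : σ → MvPolynomial τ k)
    (P : MvPolynomial σ k) : eval q (aeval g P) = eval (fun v => eval q (g v)) P := by
  induction P using MvPolynomial.induction_on with
  | C c => rw [aeval_C, algebraMap_eq, eval_C, eval_C]
  | add p q hp hq => rw [map_add, map_add, hp, hq, map_add]
  | mul_X p i hp => rw [map_mul, map_mul, hp, aeval_X, map_mul, eval_X]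

theorem order_of_quasismooth {k : Type*} [Field k] [IsAlgClosed k] (r c : ℕ)
    (a : Fin r → ℕ) (ha : Antitone a) (d : Fin c → ℕ) (hd : Antitone d) (hd0 : ∀ j, 0 < d j)
    (F : Fin c → MvPolynomial (Fin 2 ⊕ Fin r) k)
    (hF : ∀ j, (F j).IsWeightedHomogeneous (Sum.elim (fun _ => 1) a) (d j))
    (hlin : ∀ j i, coeff (Finsupp.single i 1) (F j) = 0)
    (hqs : ∀ p : Fin 2 ⊕ Fin r → k, p ≠ 0 → (∀ j, eval p (F j) = 0) →
      LinearIndependent k (fun j => fun i => eval p (pderiv i (F j)))) :
    ∀ (m : Fin r) (j : Fin c), (j : ℕ) ≤ m → a m ≤ d j := by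
  classical
  intro m j hjm
  by_contra hlt
  rw [not_le] at hlt
  -- common zero
  let g : Fin 2 ⊕ Fin r → MvPolynomial {i : Fin r // i ≤ m} k :=
    Sum.elim (fun _ => 0) (fun t => if h : t ≤ m then X ⟨t, h⟩ else 0)
  have hw0 : ∀ i : Fin c, coeff 0 (F i) = 0 := by
    intro i
    by_contra h
    have h1 := hF i h
    rw [map_zero] at h1
    have := hd0 i
    omega
  have hcard : Fintype.card (Fin j.val) < Fintype.card {i : Fin r // i ≤ m} := by
    rw [Fintype.card_fin]
    have h1 : Fintype.card {i : Fin r // i ≤ m} = (Finset.Iic m).card := by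
      rw [Fintype.card_subtype]
      congr 1
      ext i
      simp
    rw [h1, Fin.card_Iic]
    omega
  obtain ⟨q, hq0, hq⟩ := Pool.Agent.MP214270.exists_common_zero
    (fun i : Fin j.val => aeval g (F ⟨i.val, lt_trans i.isLt j.isLt⟩)) (by
      intro i
      rw [← eval_zero, QS_comp]
      have hz : (fun v => eval (0 : {i : Fin r // i ≤ m} → k) (g v)) = (0 : Fin 2 ⊕ Fin r → k) := by
        funext v
        rcases v with v | t
        · show eval (0 : {i : Fin r // i ≤ m} → k) (0 : MvPolynomial {i : Fin r // i ≤ m} k) = 0
          rw [map_zero]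
        · show eval (0 : {i : Fin r // i ≤ m} → k) (if h : t ≤ m then X ⟨t, h⟩ else 0) = 0
          split_ifs with h
          · rw [eval_X]; rfl
          · rw [map_zero]
      rw [hz, eval_zero, constantCoeff_eq]
      exact hw0 _) hcard
  let p : Fin 2 ⊕ Fin r → k := Sum.elim (fun _ => 0) (fun t => if h : t ≤ m then q ⟨t, h⟩ else 0)
  have hpbad : ∀ v : Fin 2 ⊕ Fin r, (∀ t : Fin r, t ≤ m → v ≠ Sum.inr t) → p v = 0 := by
    intro v hv
    rcases v with v | t
    · rfl
    · show (if h : t ≤ m then q ⟨t, h⟩ else 0) = 0
      rw [dif_neg fun h => hv t h rfl]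
  have hp0 : p ≠ 0 := by
    intro h
    apply hq0
    funext t
    have h1 := congrFun h (Sum.inr t.1)
    have h2 : p (Sum.inr t.1) = q t := by
      show (if h : t.1 ≤ m then q ⟨t.1, h⟩ else 0) = q t
      rw [dif_pos t.2]
    rw [← h2, h1]
    rfl
  -- large degrees
  have hlow : ∀ i : Fin c, (i : ℕ) < j → eval p (F i) = 0 := by
    intro i hi
    have h1 := hq ⟨i.val, hi⟩
    have h2 : eval q (aeval g (F i)) = eval p (F i) := by
      have h3 : (fun v => eval q (g v)) = p := by
        funext v
        rcases v with v | t
        · show eval q (0 : MvPolynomial {i : Fin r // i ≤ m} k) = 0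
          rw [map_zero]
        · show eval q (if h : t ≤ m then X ⟨t, h⟩ else 0) = if h : t ≤ m then q ⟨t, h⟩ else 0
          split_ifs with h
          · rw [eval_X]
          · rw [map_zero]
      rw [QS_comp, h3]
    rw [← h2]
    exact h1
  -- monomials of the other polynomials
  have hsupp : ∀ i : Fin c, (j : ℕ) ≤ i → ∀ s : Fin 2 ⊕ Fin r →₀ ℕ, coeff s (F i) ≠ 0 →
      (∀ v, s v ≠ 0 → p v = 0) ∧ ∃ v, s v ≠ 0 := by
    intro i hi s hs
    have hw := hF i hs
    have hdi : d i ≤ d j := hd hi
    constructor
    · intro v hv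
      refine hpbad v fun t ht hvt => ?_
      have h1 := Finsupp.le_weight_of_ne_zero' (w := (Sum.elim (fun _ => 1) a : Fin 2 ⊕ Fin r → ℕ)) hv
      rw [hw, hvt] at h1
      have h2 : a t ≤ d i := h1
      have h3 : a m ≤ a t := ha ht
      omega
    · by_contra hno
      push Not at hno
      have hs0 : s = 0 := by
        ext v
        rw [Finsupp.coe_zero, Pi.zero_apply]
        exact hno v
      rw [hs0] at hs
      exact hs (hw0 i)
  have hhigh : ∀ i : Fin c, (j : ℕ) ≤ i → eval p (F i) = 0 := by
    intro i hi
    rw [(F i).as_sum, map_sum]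
    refine Finset.sum_eq_zero fun s hs => ?_
    obtain ⟨h1, v, hv⟩ := hsupp i hi s (mem_support_iff.1 hs)
    exact QS_eval_monomial p s _ v hv (h1 v hv)
  have hall : ∀ i : Fin c, eval p (F i) = 0 := by
    intro i
    rcases lt_or_ge (i : ℕ) (j : ℕ) with h | h
    · exact hlow i h
    · exact hhigh i h
  have hli := hqs p hp0 hall
  apply hli.ne_zero j
  funext v
  show eval p (pderiv v (F j)) = 0
  rw [(F j).as_sum, map_sum, map_sum]
  refine Finset.sum_eq_zero fun s hs => ?_
  obtain ⟨h1, -⟩ := hsupp j le_rfl s (mem_support_iff.1 hs)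
  rw [pderiv_monomial]
  by_cases hsv : s v = 0
  · rw [hsv, Nat.cast_zero, mul_zero, monomial_zero, map_zero]
  · by_cases hex : ∃ u, (s - Finsupp.single v 1 : Fin 2 ⊕ Fin r →₀ ℕ) u ≠ 0
    · obtain ⟨u, hu⟩ := hex
      refine QS_eval_monomial p _ _ u hu (h1 u ?_)
      intro h0
      apply hu
      rw [Finsupp.tsub_apply, h0, Nat.zero_sub]
    · exfalso
      push Not at hex
      have hs1 : s = Finsupp.single v 1 := by
        ext u
        have h2 := hex u
        rw [Finsupp.tsub_apply] at h2
        by_cases huv : v = u
        · subst huv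
          rw [Finsupp.single_eq_same] at h2 ⊢
          omega
        · rw [Finsupp.single_apply, if_neg huv] at h2 ⊢
          omega
      rw [hs1] at hs
      exact (mem_support_iff.1 hs) (hlin j v)

end Pool.Agent.Lib.MP_1e3e9c_ag.RC
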