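import Pool.Agent.Lib.MP_1e3e9c_ag.RC.Disc

/-! # Scales: normalisation on a disc for all the factors, and roots of integral polynomials

JOB Scales (90 lines).  `disc` is imported (another job).
`coeff_mem_of_pow`: suppose that some coefficient of `Q` is not in `V`.  Let `c⁻¹` be a coefficient of `Q` with the
largest valuation (`> 1`), so `c ∈ V` is a nonunit, and `C c * Q = map q`, `q : V[X]`, where some coefficient of `q`
is `1`: the reduction `q̄` of `q` in `κ[X]` (`κ = IsLocalRing.ResidueField V`) is not zero, so `q̄ ^ e ≠ 0`; but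
`(C c * Q) ^ e = C (c ^ e) * Q ^ e` and `Q ^ e` lifts to `V[X]`, so `q̄ ^ e = 0` (the residue of `c ^ e` is `0`).
`scales`: apply `disc` to the family `h i`, `i` in the subtype `{i // fc i = fc i0}`; it gives `z`, `ρ ≠ 0`,
`μ ≠ 0` and `i j l l'`.  For `b = fc i0` put `μ b = μ`: the minor has the valuation `|μ|^2`, and all entries are
`≤ |μ|`, so one of the entries has the valuation `|μ|` (otherwise both products, hence their difference, would
be smaller than `|μ|^2`).  For `b ≠ fc i0` let `μ b` be a coefficient with the largest valuation among all the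
coefficients of `(h i).comp (C ρ * X + C z)`, `fc i = b` (finitely many are not zero; not all are zero since some
`h i ≠ 0` and `p ↦ p.comp (C ρ * X + C z)` is injective because `ρ ≠ 0`). -/

set_option autoImplicit false

namespace Pool.Agent.Lib.MP_1e3e9c_ag.RC

open Polynomial

theorem coeff_mem_of_pow {L : Type*} [Field L] (V : ValuationSubring L) (Q : L[X]) (e : ℕ)
    (he : 0 < e) (h : ∀ l, (Q ^ e).coeff l ∈ V) (l : ℕ) : Q.coeff l ∈ V := by
  let _ : Algebra V[X] L[X] := Polynomial.algebra V L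
  have h1 : IsIntegral V[X] Q := by
    have h2 : IsIntegral V[X] (Q ^ e) := by
      have h3 : Q ^ e ∈ Polynomial.lifts (algebraMap V L) := by
        rw [Polynomial.lifts_iff_coeff_lifts]
        intro n
        exact ⟨⟨(Q ^ e).coeff n, h n⟩, rfl⟩
      rw [Polynomial.mem_lifts] at h3
      obtain ⟨q, hq⟩ := h3
      rw [← hq]
      exact isIntegral_algebraMap (R := V[X]) (A := L[X]) (x := q)
    exact h2.of_pow he
  obtain ⟨y, hy⟩ := IsIntegrallyClosed.isIntegral_iff.1 (h1.coeff l)
  rw [← hy]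
  exact y.2

private theorem scales_one {L : Type*} [Field L] (V : ValuationSubring L) (p : L[X]) :
    ∃ l0, ∀ l, V.valuation (p.coeff l) ≤ V.valuation (p.coeff l0) := by
  obtain ⟨l0, _, hl0⟩ := Finset.exists_max_image (Finset.range (p.natDegree + 1))
    (fun l => V.valuation (p.coeff l)) ⟨0, Finset.mem_range.2 (Nat.succ_pos _)⟩
  refine ⟨l0, fun l => ?_⟩
  by_cases hl : l < p.natDegree + 1
  · exact hl0 l (Finset.mem_range.2 hl)
  · rw [coeff_eq_zero_of_natDegree_lt (by omega), map_zero]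
    exact zero_le

private theorem scales_fam {L ι : Type*} [Field L] (V : ValuationSubring L) [Finite ι] [Nonempty ι]
    (p : ι → L[X]) : ∃ i l, ∀ i' l', V.valuation ((p i').coeff l') ≤
      V.valuation ((p i).coeff l) := by
  choose l0 hl0 using fun i => scales_one V (p i)
  obtain ⟨i, hi⟩ := Finite.exists_max fun i => V.valuation ((p i).coeff (l0 i))
  exact ⟨i, l0 i, fun i' l' => (hl0 i' l').trans (hi i')⟩

private theorem scales_comp {L : Type*} [Field L] {ρ z : L} (hρ : ρ ≠ 0) {p : L[X]} (hp : p ≠ 0) :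
    p.comp (C ρ * X + C z) ≠ 0 := by
  intro h
  rw [Polynomial.comp_eq_zero_iff] at h
  rcases h with h | ⟨_, h⟩
  · exact hp h
  · have h1 := congrArg (fun q : L[X] => q.coeff 1) h
    simp at h1
    exact hρ h1

theorem scales {L ι B : Type*} [Field L] [IsAlgClosed L] (V : ValuationSubring L) [Finite ι]
    (fc : ι → B) (h : ι → L[X]) (hne : ∀ b, ∃ i, fc i = b ∧ h i ≠ 0) (i0 i1 : ι)
    (h01 : fc i0 = fc i1) (h0 : h i0 ≠ 0) (h1 : ∀ c : L, h i1 ≠ C c * h i0) :
    ∃ z ρ : L, ρ ≠ 0 ∧ ∃ μ : B → L, (∀ b, μ b ≠ 0) ∧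
      (∀ i l, V.valuation (((h i).comp (C ρ * X + C z)).coeff l) ≤ V.valuation (μ (fc i))) ∧
      (∀ b, ∃ i l, fc i = b ∧
        V.valuation (((h i).comp (C ρ * X + C z)).coeff l) = V.valuation (μ b)) ∧
      ∃ i j l l', fc i = fc j ∧ V.valuation
        (((h i).comp (C ρ * X + C z)).coeff l * ((h j).comp (C ρ * X + C z)).coeff l' -
          ((h i).comp (C ρ * X + C z)).coeff l' * ((h j).comp (C ρ * X + C z)).coeff l)
        = V.valuation (μ (fc i)) ^ 2 := by
  obtain ⟨z, ρ, μ0, hρ, hμ0, hle, i, j, l, l', hmin⟩ := disc V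
    (fun i : {i // fc i = fc i0} => h i.1) ⟨i0, rfl⟩ ⟨i1, h01.symm⟩ h0 h1
  have hpos : 0 < V.valuation μ0 := (Valuation.pos_iff _).2 hμ0
  have hatt : ∃ (i : {i // fc i = fc i0}) (l : ℕ),
      V.valuation (((h i.1).comp (C ρ * X + C z)).coeff l) = V.valuation μ0 := by
    by_contra hcon
    have hlt : ∀ (i : {i // fc i = fc i0}) (l : ℕ),
        V.valuation (((h i.1).comp (C ρ * X + C z)).coeff l) < V.valuation μ0 :=
      fun i l => lt_of_le_of_ne (hle i l) fun he => hcon ⟨i, l, he⟩
    have hmul : ∀ x y : L, V.valuation x < V.valuation μ0 → V.valuation y < V.valuation μ0 →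
        V.valuation (x * y) < V.valuation μ0 ^ 2 := by
      intro x y hx hy
      rw [map_mul, sq]
      exact (mul_le_mul_of_nonneg_left hy.le zero_le).trans_lt (mul_lt_mul_of_pos_right hx hpos)
    have h2 := Valuation.map_sub_lt V.valuation (hmul _ _ (hlt i l) (hlt j l'))
      (hmul _ _ (hlt i l') (hlt j l))
    exact h2.ne hmin
  have hex : ∀ b, ∃ m : L, m ≠ 0 ∧
      (∀ i, fc i = b → ∀ l, V.valuation (((h i).comp (C ρ * X + C z)).coeff l) ≤
        V.valuation m) ∧
      (∃ i l, fc i = b ∧ V.valuation (((h i).comp (C ρ * X + C z)).coeff l) =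
        V.valuation m) ∧ (b = fc i0 → m = μ0) := by
    intro b
    by_cases hb : b = fc i0
    · refine ⟨μ0, hμ0, fun i hi l => hle ⟨i, hi.trans hb⟩ l, ?_, fun _ => rfl⟩
      obtain ⟨i, l, hil⟩ := hatt
      exact ⟨i.1, l, i.2.trans hb.symm, hil⟩
    · obtain ⟨ib, hib, hib0⟩ := hne b
      have : Nonempty {i // fc i = b} := ⟨⟨ib, hib⟩⟩
      obtain ⟨i2, l2, hmax⟩ := scales_fam V
        (fun i : {i // fc i = b} => (h i.1).comp (C ρ * X + C z))
      have hnz : ((h i2.1).comp (C ρ * X + C z)).coeff l2 ≠ 0 := by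
        intro h0'
        apply scales_comp (z := z) hρ hib0
        ext n
        have h3 := hmax ⟨ib, hib⟩ n
        rw [h0', map_zero] at h3
        rw [coeff_zero]
        exact (Valuation.zero_iff V.valuation).1 (le_antisymm h3 zero_le)
      exact ⟨_, hnz, fun i hi l => hmax ⟨i, hi⟩ l, ⟨i2.1, l2, i2.2, rfl⟩,
        fun hb' => absurd hb' hb⟩
  choose μ hμ hμle hμatt hμ0' using hex
  have hb0 : μ (fc i0) = μ0 := hμ0' (fc i0) rfl
  refine ⟨z, ρ, hρ, μ, hμ, fun i l => hμle (fc i) i rfl l, hμatt, i.1, j.1, l, l',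
    i.2.trans j.2.symm, ?_⟩
  rw [i.2, hb0]
  exact hmin

end Pool.Agent.Lib.MP_1e3e9c_ag.RC
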